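import Pool.Agent.H88.WPD.Loxo

/-!
The centraliser of a WPD element is virtually cyclic.
-/

namespace Pool.Agent.H55.WPD

open Pool.Agent.H88.WPD

/-- Discrete intermediate value property. -/
theorem discrete_ivt {f : ℕ → ℝ} {τ v : ℝ} {M : ℕ} (h0 : f 0 = 0) (hτ : 0 ≤ τ)
    (hstep : ∀ j, f (j + 1) - f j ≤ τ) (hv : 0 ≤ v) (hM : v ≤ f M) :
    ∃ j ≤ M, |f j - v| ≤ τ := by
  classical
  have hex : ∃ j, v ≤ f j := ⟨M, hM⟩
  refine ⟨Nat.find hex, Nat.find_min' hex hM, ?_⟩
  have h1 : v ≤ f (Nat.find hex) := Nat.find_spec hex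
  rw [abs_of_nonneg (by linarith)]
  rcases Nat.eq_zero_or_pos (Nat.find hex) with h | h
  · rw [h] at h1 ⊢
    rw [h0] at h1 ⊢
    linarith
  · have h2 : ¬ v ≤ f (Nat.find hex - 1) := Nat.find_min hex (by omega)
    have h3 := hstep (Nat.find hex - 1)
    have h4 : Nat.find hex - 1 + 1 = Nat.find hex := by omega
    rw [h4] at h3
    push Not at h2
    linarith

section

variable {X : Type*} [PseudoMetricSpace X] {G : Type*} [Group G] [MulAction G X]
    [IsIsometricSMul G X] {δ : ℝ}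

omit [IsIsometricSMul G X] in
theorem gp_zpow {z : G} {o : X} {κ : ℝ}
    (hκ : ∀ m n : ℕ, gp ((z ^ m)⁻¹ • o) (z ^ n • o) o ≤ κ) {k l : ℤ} (hk : k ≤ 0) (hl : 0 ≤ l) :
    gp (z ^ k • o) (z ^ l • o) o ≤ κ := by
  obtain ⟨m, hm⟩ := Int.eq_ofNat_of_zero_le (neg_nonneg.mpr hk)
  obtain ⟨n, hn⟩ := Int.eq_ofNat_of_zero_le hl
  have h1 : z ^ k = (z ^ m)⁻¹ := by
    have : k = -(m : ℤ) := by omega
    rw [this, zpow_neg, zpow_natCast]
  have h2 : z ^ l = z ^ n := by rw [hn]; exact zpow_natCast z n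
  rw [h1, h2]
  exact hκ m n

/-- Every element commuting with a loxodromic `z` moves `o` close to the orbit of `z`. -/
theorem near_orbit (hX : Hyp X δ) {z : G} (hL : Lox X z) (o : X) {κ : ℝ}
    (hκ : ∀ m n : ℕ, gp ((z ^ m)⁻¹ • o) (z ^ n • o) o ≤ κ) {h : G} (hc : Commute h z) :
    ∃ n : ℤ, dist (z ^ n • o) (h • o) ≤ dist o (z • o) + 2 * κ + 6 * δ := by
  have hδ : 0 ≤ δ := hX.nonneg o
  have hκ0 : 0 ≤ κ := le_trans (gp_nonneg _ _ _) (hκ 0 0)
  set τ : ℝ := dist o (z • o) with hτ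
  set ρ : ℝ := dist o (h • o) with hρ
  have hτ0 : 0 ≤ τ := dist_nonneg
  have hρ0 : 0 ≤ ρ := dist_nonneg
  obtain ⟨m, hm⟩ := lox_tend hL o (2 * ρ + 2 * κ + 5 * δ + 1)
  have hm' := hm m le_rfl
  set a : X := z ^ (-(m : ℤ)) • o with ha
  set b : X := z ^ (m : ℤ) • o with hb
  set q : X := h • o with hq
  have hob : 2 * ρ + 2 * κ + 5 * δ + 1 ≤ dist o b := by
    rw [hb, zpow_natCast]; exact hm'
  have hoa : 2 * ρ + 2 * κ + 5 * δ + 1 ≤ dist o a := by
    have : dist o a = dist o b := by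
      rw [ha, hb, zpow_neg, dist_inv_smul]
    rw [this]; exact hob
  have hcz : ∀ k : ℤ, ∀ x : X, h • z ^ k • x = z ^ k • h • x := by
    intro k x
    rw [← mul_smul, ← mul_smul, (hc.zpow_right k).eq]
  have hha : dist a (h • a) = ρ := by rw [ha, hcz, dist_smul]
  have hhb : dist b (h • b) = ρ := by rw [hb, hcz, dist_smul]
  have g0 : gp (h • b) (h • a) q ≤ κ := by
    rw [hq, gp_smul, gp_comm]
    exact gp_zpow hκ (by omega) (by omega)
  have move : ∀ x x' p : X, dist x x' = ρ → dist x' p - ρ ≤ gp x x' p := by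
    intro x x' p h
    unfold gp
    have := dist_triangle x' x p
    rw [dist_comm x' x] at this
    linarith
  have g1 : gp (h • b) a q ≤ κ + δ := by
    apply hX.le g0
    have h1 := move a (h • a) q hha
    have h2 : dist (h • a) q = dist o a := by rw [hq, dist_smul, dist_comm]
    rw [h2] at h1
    linarith
  have g2 : gp a b q ≤ κ + δ + δ := by
    apply hX.le (z := h • b) (by rw [gp_comm]; exact g1)
    have h1 := move b (h • b) q hhb
    have h2 : dist (h • b) q = dist o b := by rw [hq, dist_smul, dist_comm]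
    rw [h2] at h1
    linarith
  -- the point on the orbit at the right distance from a
  have hab := dist_eq_gp a b q
  have hqb : dist o b - ρ ≤ dist b q := by
    have := dist_triangle o q b
    rw [dist_comm q b] at this
    have h3 : dist o q = ρ := rfl
    linarith
  have hlt : dist a q ≤ dist a b := by linarith
  obtain ⟨j, hj, hjd⟩ := discrete_ivt (f := fun j : ℕ => dist a (z ^ ((j : ℤ) - m) • o))
    (τ := τ) (v := dist a q) (M := 2 * m) (by
      have : ((0 : ℕ) : ℤ) - m = -(m : ℤ) := by simp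
      simp only [this]
      exact dist_self _) hτ0 (by
      intro j
      have e1 : ((j + 1 : ℕ) : ℤ) - m = ((j : ℤ) - m) + 1 := by push_cast; ring
      have e2 : dist (z ^ ((j : ℤ) - m) • o) (z ^ (((j + 1 : ℕ) : ℤ) - m) • o) = τ := by
        rw [e1, zpow_add, zpow_one, mul_smul, dist_smul]
      have := dist_triangle a (z ^ ((j : ℤ) - m) • o) (z ^ (((j + 1 : ℕ) : ℤ) - m) • o)
      rw [e2] at this
      linarith) dist_nonneg (by
      have e1 : ((2 * m : ℕ) : ℤ) - m = (m : ℤ) := by push_cast; ring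
      simp only [e1]
      exact hlt)
  set p : X := z ^ ((j : ℤ) - m) • o with hp
  have hjd' := abs_le.1 hjd
  have g3 : gp a b p ≤ κ := by
    have e1 : a = z ^ ((j : ℤ) - m) • z ^ (-(j : ℤ)) • o := by
      rw [ha, ← mul_smul, ← zpow_add]; congr 2; ring
    have e2 : b = z ^ ((j : ℤ) - m) • z ^ (2 * (m : ℤ) - j) • o := by
      rw [hb, ← mul_smul, ← zpow_add]; congr 2; ring
    rw [e1, e2, hp, gp_smul]
    exact gp_zpow hκ (by omega) (by omega)
  have hab' := dist_eq_gp a b p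
  have hf := hX.four p q a b
  refine ⟨(j : ℤ) - m, ?_⟩
  have e3 : dist p a = dist a p := dist_comm _ _
  have e4 : dist q b = dist b q := dist_comm _ _
  have e5 : dist p b = dist b p := dist_comm _ _
  have e6 : dist q a = dist a q := dist_comm _ _
  have e7 : dist p a + dist q b ≤ dist a b + τ + 2 * κ + 4 * δ := by
    rw [e3, e4]; linarith
  have e8 : dist p b + dist q a ≤ dist a b + τ + 2 * κ + 4 * δ := by
    rw [e5, e6]; linarith
  have e9 := max_le e7 e8
  linarith

end

end Pool.Agent.H55.WPD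

namespace Pool.Agent.H88.WPD

open Pool.Agent.H55.WPD

/-- The centraliser of a WPD element is virtually cyclic. -/
theorem cen_of_wpd {X : Type*} [PseudoMetricSpace X] {G : Type*} [Group G] [MulAction G X]
    [IsIsometricSMul G X] {δ : ℝ} (hX : Hyp X δ) {z : G} (hz : WPD X z) :
    ∀ g : G, g * z * g⁻¹ = z → ∃ j l : ℤ, 0 < j ∧ g ^ j = z ^ l := by
  intro g hg
  have hgz : Commute g z := by
    have h1 : g * z = z * g := by
      conv_rhs => rw [← hg]
      group
    exact h1
  obtain ⟨o, -⟩ := hz.1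
  have hδ : 0 ≤ δ := hX.nonneg o
  obtain ⟨κ, hκ0, hκ⟩ := lox_data hX hz.1 o
  set D0 : ℝ := dist o (z • o) + 2 * κ + 6 * δ with hD0
  have hD0' : 0 ≤ D0 := by positivity
  have hch : ∀ i : ℕ, ∃ n : ℤ, dist (z ^ n • o) ((g ^ i) • o) ≤ D0 := fun i =>
    near_orbit hX hz.1 o hκ (hgz.pow_left i)
  choose n hn using hch
  obtain ⟨N, -, hfin⟩ := hz.2 o D0 hD0'
  set φ : ℕ → G := fun i => z ^ (-(n i)) * g ^ i with hφ
  have hmem : ∀ i, φ i ∈ Stab G D0 o (z ^ N • o) := by
    intro i
    have h1 : dist o (φ i • o) ≤ D0 := by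
      have e1 : dist o (φ i • o) = dist (z ^ (n i) • o) ((g ^ i) • o) := by
        rw [← dist_smul (z ^ (n i)) o (φ i • o), hφ]
        simp only [zpow_neg, mul_smul, smul_inv_smul]
      rw [e1]; exact hn i
    refine ⟨h1, ?_⟩
    have hcm : Commute (φ i) (z ^ N) :=
      (((Commute.refl z).zpow_left (-(n i))).mul_left (hgz.pow_left i)).pow_right N
    have e2 : φ i • z ^ N • o = z ^ N • φ i • o := by
      rw [← mul_smul, ← mul_smul, hcm.eq]
    rw [e2, dist_smul]
    exact h1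
  obtain ⟨i, i', hii, heq⟩ : ∃ i i' : ℕ, i < i' ∧ φ i = φ i' := by
    by_contra hcon
    push Not at hcon
    have hinj : Function.Injective φ := by
      intro a b hab
      by_contra hne
      rcases lt_or_gt_of_ne hne with h | h
      · exact hcon a b h hab
      · exact hcon b a h hab.symm
    have : (Set.range φ).Infinite := Set.infinite_range_of_injective hinj
    exact this (hfin.subset (by rintro _ ⟨i, rfl⟩; exact hmem i))
  refine ⟨(i' : ℤ) - i, n i' - n i, by omega, ?_⟩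
  simp only [hφ] at heq
  have h1 : g ^ (i' : ℤ) = z ^ (n i') * (z ^ (-(n i)) * g ^ (i : ℤ)) := by
    rw [zpow_natCast, zpow_natCast, heq, ← mul_assoc, ← zpow_add, add_neg_cancel, zpow_zero,
      one_mul]
  rw [zpow_sub, h1, ← mul_assoc, ← zpow_add, mul_assoc, mul_inv_cancel, mul_one]
  rfl

end Pool.Agent.H88.WPD
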