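import Pool.Agent.H88.WPD.AxisDef

/-!
Coordinates along a pair of far points of a hyperbolic space: position `lam` and depth `nu`.
-/

namespace Pool.Agent.H55.WPD

open Pool.Agent.H88.WPD

section tools

variable {X : Type*} [PseudoMetricSpace X] {δ : ℝ}

/-- Position of `p` between `A` and `B`, measured from `A`. -/
noncomputable def lam (A B p : X) : ℝ := gp p B A

/-- Distance of `p` from the segment between `A` and `B`. -/
noncomputable def nu (A B p : X) : ℝ := gp A B p

theorem dist_left (A B p : X) : dist p A = lam A B p + nu A B p := by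
  unfold lam nu gp
  rw [dist_comm p A, dist_comm p B, dist_comm B A]
  ring

theorem dist_right (A B p : X) : dist p B = dist A B - lam A B p + nu A B p := by
  unfold lam nu gp
  rw [dist_comm p A, dist_comm p B, dist_comm B A]
  ring

theorem lam_nonneg (A B p : X) : 0 ≤ lam A B p := gp_nonneg _ _ _

theorem nu_nonneg (A B p : X) : 0 ≤ nu A B p := gp_nonneg _ _ _

theorem lam_le (A B p : X) : lam A B p ≤ dist A B := by
  unfold lam
  have := gp_le_right p B A
  rwa [dist_comm B A] at this

theorem lam_self (A B : X) : lam A B A = 0 := gp_self_base _ _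

theorem lam_right (A B : X) : lam A B B = dist A B := by
  unfold lam
  rw [gp_self_left, dist_comm]

theorem nu_left (A B : X) : nu A B A = 0 := gp_self_base _ _

theorem nu_right (A B : X) : nu A B B = 0 := gp_self_base' _ _

theorem lam_swap (A B p : X) : lam B A p = dist A B - lam A B p := by
  unfold lam gp
  rw [dist_comm B A]
  ring

theorem nu_swap (A B p : X) : nu B A p = nu A B p := gp_comm _ _ _

theorem lam_lip (A B x p : X) : lam A B x - lam A B p ≤ dist x p := by
  have := gp_left_le x p B A
  unfold lam
  linarith

theorem lam_lip' (A B x p : X) : |lam A B x - lam A B p| ≤ dist x p := by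
  rw [abs_le]
  have h1 := lam_lip A B x p
  have h2 := lam_lip A B p x
  rw [dist_comm p x] at h2
  constructor <;> linarith

theorem tf_up (hX : Hyp X δ) (A B x p : X) :
    dist x p ≤ |lam A B x - lam A B p| + nu A B x + nu A B p + 2 * δ := by
  have h1 := hX.four x p A B
  have h2 := dist_left A B x
  have h3 := dist_left A B p
  have h4 := dist_right A B x
  have h5 := dist_right A B p
  rcases max_choice (dist x A + dist p B) (dist x B + dist p A) with h6 | h6
  · rw [h6] at h1
    have := le_abs_self (lam A B x - lam A B p)
    linarith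
  · rw [h6] at h1
    have := neg_abs_le (lam A B x - lam A B p)
    linarith

theorem tf_lo (hX : Hyp X δ) (A B x p : X) (h : lam A B p + δ < lam A B x) :
    lam A B x - lam A B p + nu A B x + nu A B p - 2 * δ ≤ dist x p := by
  have h1 := hX.four x A p B
  have h2 := dist_left A B x
  have h3 := dist_left A B p
  have h4 := dist_right A B x
  have h5 := dist_right A B p
  have h7 : dist A p = dist p A := dist_comm _ _
  rcases max_choice (dist x p + dist A B) (dist x B + dist A p) with h6 | h6
  · rw [h6] at h1
    linarith
  · rw [h6] at h1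
    linarith

theorem tf_lo' (hX : Hyp X δ) (A B x p : X) (h : lam A B x + δ < lam A B p) :
    lam A B p - lam A B x + nu A B x + nu A B p - 2 * δ ≤ dist x p := by
  have := tf_lo hX A B p x h
  rw [dist_comm p x] at this
  linarith

/-- Local product from the global coordinates. -/
theorem gp_le_nu (hX : Hyp X δ) (A B u v q : X) (h1 : lam A B u ≤ lam A B q)
    (h2 : lam A B q ≤ lam A B v) (h3 : lam A B u + δ < lam A B v) :
    gp u v q ≤ nu A B q + 3 * δ := by
  have e1 := tf_up hX A B u q
  have e2 := tf_up hX A B v q
  have e3 := tf_lo' hX A B u v h3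
  rw [abs_of_nonpos (by linarith)] at e1
  rw [abs_of_nonneg (by linarith)] at e2
  unfold gp
  linarith

/-- Lower bound for the local product, valid between the two points. -/
theorem nu_le_gp_mid (hX : Hyp X δ) (A B u v q : X) (h1 : lam A B u + δ < lam A B q)
    (h2 : lam A B q + δ < lam A B v) :
    nu A B q ≤ gp u v q + 3 * δ := by
  have e1 := tf_lo' hX A B u q h1
  have e2 := tf_lo hX A B v q h2
  have e3 := tf_up hX A B u v
  have hδ := hX.nonneg u
  rw [abs_of_nonpos (by linarith)] at e3
  unfold gp
  linarith

/-- Global depth from the local product. -/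
theorem nu_le_gp (hX : Hyp X δ) (A B u v q : X) (h1 : lam A B u ≤ lam A B v) :
    nu A B q ≤ gp u v q + nu A B u + nu A B v + δ := by
  have e1 := tf_up hX A B u v
  rw [abs_of_nonpos (by linarith)] at e1
  have e2 := dist_left A B u
  have e3 := dist_right A B v
  have e4 := dist_triangle q u A
  have e5 := dist_triangle q v B
  have e6 : dist q u = dist u q := dist_comm _ _
  have e7 : dist q v = dist v q := dist_comm _ _
  have e8 := dist_left A B q
  have e9 := dist_right A B q
  unfold gp
  linarith

/-- A point close to the segment between `u` and `v` has its position between theirs. -/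
theorem lam_between (hX : Hyp X δ) (A B u v q : X) (h1 : lam A B u ≤ lam A B v) {s : ℝ}
    (hs : gp u v q ≤ s) :
    lam A B u - (s + nu A B u + nu A B v + δ) ≤ lam A B q ∧
      lam A B q ≤ lam A B v + (s + nu A B u + nu A B v + δ) := by
  have e1 := tf_up hX A B u v
  rw [abs_of_nonpos (by linarith)] at e1
  have e2 := lam_lip' A B u q
  have e3 := lam_lip' A B v q
  rw [abs_le] at e2 e3
  have hδ := hX.nonneg u
  have n1 := nu_nonneg A B u
  have n2 := nu_nonneg A B v
  unfold gp at hs
  have hs0 : 0 ≤ s := le_trans (by
    have := gp_nonneg u v q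
    unfold gp at this
    exact this) hs
  constructor
  · by_contra hcon
    push Not at hcon
    linarith [e2.1, e2.2, e3.1, e3.2]
  · by_contra hcon
    push Not at hcon
    linarith [e2.1, e2.2, e3.1, e3.2]

/-- The action lemma in metric form: an isometric copy `u' v' p'` of `u v p`, with `u, v` and
`u', v'` close to the segments, has the same depth and the same relative position. -/
theorem act (hX : Hyp X δ) {c : ℝ} (hδ : δ ≤ c) (A B A' B' u v p u' v' p' : X)
    (hu : nu A B u ≤ c) (_hv : nu A B v ≤ c) (hu' : nu A' B' u' ≤ c) (hv' : nu A' B' v' ≤ c)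
    (duv : dist u' v' = dist u v) (dup : dist u' p' = dist u p) (dvp : dist v' p' = dist v p)
    (ho : lam A' B' u' ≤ lam A' B' v') (h1 : lam A B u + 10 * c ≤ lam A B p)
    (h2 : lam A B p + 10 * c ≤ lam A B v) (hc : 0 < c) :
    nu A' B' p' ≤ nu A B p + 6 * c ∧
      |(lam A' B' p' - lam A' B' u') - (lam A B p - lam A B u)| ≤ 8 * c := by
  have hδ0 := hX.nonneg u
  have n1 := nu_nonneg A B u
  have n2 := nu_nonneg A B v
  have n3 := nu_nonneg A' B' u'
  have n4 := nu_nonneg A' B' v'
  have n5 := nu_nonneg A B p
  have n6 := nu_nonneg A' B' p'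
  have g1 : gp u' v' p' = gp u v p := by
    unfold gp
    rw [duv, dup, dvp]
  have g2 := gp_le_nu hX A B u v p (by linarith) (by linarith) (by linarith)
  have g3 := nu_le_gp hX A' B' u' v' p' ho
  refine ⟨by linarith, ?_⟩
  -- distances in the source
  have s1u := tf_up hX A B u p
  have s1l := tf_lo' hX A B u p (by linarith)
  have s2u := tf_up hX A B v p
  have s2l := tf_lo hX A B v p (by linarith)
  have s3u := tf_up hX A B u v
  have s3l := tf_lo' hX A B u v (by linarith)
  rw [abs_of_nonpos (by linarith)] at s1u s3u
  rw [abs_of_nonneg (by linarith)] at s2u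
  -- the target
  have t3u := tf_up hX A' B' u' v'
  rw [abs_of_nonpos (by linarith), duv] at t3u
  have o3 : lam A' B' u' + δ < lam A' B' v' := by linarith
  have t3l := tf_lo' hX A' B' u' v' o3
  rw [duv] at t3l
  have t1u := tf_up hX A' B' u' p'
  have t2u := tf_up hX A' B' v' p'
  rw [dup] at t1u
  rw [dvp] at t2u
  have o1 : lam A' B' u' + δ < lam A' B' p' := by
    by_contra hcon
    push Not at hcon
    have t2l := tf_lo hX A' B' v' p' (by linarith)
    rw [dvp] at t2l
    rcases abs_cases (lam A' B' u' - lam A' B' p') with ⟨h5, h6⟩ | ⟨h5, h6⟩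
    · rw [h5] at t1u
      linarith
    · rw [h5] at t1u
      linarith
  have o2 : lam A' B' p' + δ < lam A' B' v' := by
    by_contra hcon
    push Not at hcon
    have t1l := tf_lo' hX A' B' u' p' o1
    rw [dup] at t1l
    rcases abs_cases (lam A' B' v' - lam A' B' p') with ⟨h5, h6⟩ | ⟨h5, h6⟩
    · rw [h5] at t2u
      linarith
    · rw [h5] at t2u
      linarith
  have t1l := tf_lo' hX A' B' u' p' o1
  have t2l := tf_lo hX A' B' v' p' o2
  rw [dup] at t1l
  rw [dvp] at t2l
  rw [abs_of_nonpos (by linarith)] at t1u
  rw [abs_of_nonneg (by linarith)] at t2u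
  rw [abs_le]
  constructor <;> linarith

end tools

end Pool.Agent.H55.WPD
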