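import Pool.Agent.H55.WPD.Ov1

/-!
Positions of the points of an axis.
-/

namespace Pool.Agent.H55.WPD

open Pool.Agent.H88.WPD

/-- Discrete intermediate value theorem. -/
theorem int_step (f : ℤ → ℝ) {a b : ℤ} (hab : a < b) {t : ℝ} (h1 : f a ≤ t) (h2 : t ≤ f b) :
    ∃ i, a ≤ i ∧ i + 1 ≤ b ∧ f i ≤ t ∧ t ≤ f (i + 1) := by
  by_contra hcon
  push Not at hcon
  have key : ∀ k : ℤ, a ≤ k → k ≤ b - 1 → f k ≤ t := by
    intro k hk
    induction k, hk using Int.leInduction with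
    | base => intro _; exact h1
    | succ k hk ih =>
      intro hk2
      exact (hcon k hk (by omega) (ih (by omega))).le
  have h3 := hcon (b - 1) (by omega) (by omega) (key (b - 1) (by omega) le_rfl)
  rw [sub_add_cancel] at h3
  linarith

section axis

variable {X : Type*} [PseudoMetricSpace X] {G : Type*} [Group G] [MulAction G X] {δ : ℝ}
variable {w : G} {J : ℕ} {Y Y' Z : ℤ → X} {c e ℓ ℓ₂ ℓp : ℝ}

omit [PseudoMetricSpace X] in
theorem zpow_ax {P : ℤ → X} (hP : ∀ i : ℤ, w • P i = P (i + J)) (s i : ℤ) :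
    w ^ s • P i = P (i + s * J) := by
  induction s using Int.induction_on generalizing i with
  | zero => simp
  | succ k ih =>
    rw [zpow_add_one, mul_smul, hP, ih]
    congr 1
    ring
  | pred k ih =>
    rw [zpow_sub_one, mul_smul]
    have h1 : w⁻¹ • P i = P (i - J) := by
      rw [inv_smul_eq_iff, hP, sub_add_cancel]
    rw [h1, ih]
    congr 1
    ring

theorem nuY (hA : AxisData w J Y Y' Z c e ℓ ℓ₂ ℓp) {a b i : ℤ} (h1 : a ≤ i) (h2 : i ≤ b) :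
    nu (Y a) (Y b) (Y i) ≤ c := hA.YY a i b h1 h2

theorem nuY' (hA : AxisData w J Y Y' Z c e ℓ ℓ₂ ℓp) {a b i : ℤ} (h1 : a ≤ i) (h2 : i < b) :
    nu (Y a) (Y b) (Y' i) ≤ c := hA.YY' a i b h1 h2

theorem nuZ (hA : AxisData w J Y Y' Z c e ℓ ℓ₂ ℓp) {a b i : ℤ} (h1 : a < i) (h2 : i ≤ b) :
    nu (Y a) (Y b) (Z i) ≤ e := hA.YZ a i b h1 h2

theorem lamY_step (hA : AxisData w J Y Y' Z c e ℓ ℓ₂ ℓp) {a b i : ℤ} (h1 : a ≤ i)
    (h2 : i + 1 ≤ b) :
    ℓ₂ - 2 * c ≤ lam (Y a) (Y b) (Y (i + 1)) - lam (Y a) (Y b) (Y i) ∧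
      lam (Y a) (Y b) (Y (i + 1)) - lam (Y a) (Y b) (Y i) ≤ ℓp := by
  have e1 := hA.YY a i (i + 1) h1 (by omega)
  have e2 := hA.YY i (i + 1) b (by omega) h2
  have e3 := hA.dY i
  have e4 := hA.dYp i
  have e5 := dist_left (Y a) (Y b) (Y i)
  have e6 := dist_left (Y a) (Y b) (Y (i + 1))
  have e7 := dist_right (Y a) (Y b) (Y i)
  have e8 := dist_right (Y a) (Y b) (Y (i + 1))
  have e9 := lam_lip (Y a) (Y b) (Y (i + 1)) (Y i)
  rw [dist_comm (Y (i + 1)) (Y i)] at e9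
  unfold gp at e1 e2
  rw [dist_comm (Y a) (Y i), dist_comm (Y (i + 1)) (Y i), dist_comm (Y a) (Y (i + 1))] at e1
  rw [dist_comm (Y b) (Y (i + 1))] at e2
  constructor
  · linarith
  · linarith

theorem lamY_lo (hA : AxisData w J Y Y' Z c e ℓ ℓ₂ ℓp) {a b i k : ℤ} (h1 : a ≤ i)
    (hik : i ≤ k) (h2 : k ≤ b) :
    ((k : ℝ) - i) * (ℓ₂ - 2 * c) ≤ lam (Y a) (Y b) (Y k) - lam (Y a) (Y b) (Y i) := by
  induction k, hik using Int.leInduction with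
  | base => simp
  | succ k hk ih =>
    have h3 := ih (by omega)
    have h4 := (lamY_step hA (a := a) (b := b) (i := k) (by omega) h2).1
    push_cast
    linarith

theorem lamY_hi (hA : AxisData w J Y Y' Z c e ℓ ℓ₂ ℓp) {a b i k : ℤ} (h1 : a ≤ i)
    (hik : i ≤ k) (h2 : k ≤ b) :
    lam (Y a) (Y b) (Y k) - lam (Y a) (Y b) (Y i) ≤ ((k : ℝ) - i) * ℓp := by
  induction k, hik using Int.leInduction with
  | base => simp
  | succ k hk ih =>
    have h3 := ih (by omega)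
    have h4 := (lamY_step hA (a := a) (b := b) (i := k) (by omega) h2).2
    push_cast
    linarith

theorem lamY_mono (hA : AxisData w J Y Y' Z c e ℓ ℓ₂ ℓp) (h0 : 0 ≤ ℓ₂ - 2 * c) {a b i k : ℤ}
    (h1 : a ≤ i) (hik : i ≤ k) (h2 : k ≤ b) :
    lam (Y a) (Y b) (Y i) ≤ lam (Y a) (Y b) (Y k) := by
  have h3 := lamY_lo hA h1 hik h2
  have h4 : (0 : ℝ) ≤ (k : ℝ) - i := by
    have : (i : ℝ) ≤ k := by exact_mod_cast hik
    linarith
  have h5 := mul_nonneg h4 h0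
  linarith

/-- The distance of two axis points. -/
theorem distY (hA : AxisData w J Y Y' Z c e ℓ ℓ₂ ℓp) {i k : ℤ} (hik : i ≤ k) :
    dist (Y i) (Y k) ≤ ((k : ℝ) - i) * ℓp := by
  induction k, hik using Int.leInduction with
  | base => simp
  | succ k hk ih =>
    have h4 := hA.dYp k
    have h5 := dist_triangle (Y i) (Y k) (Y (k + 1))
    push_cast
    linarith

theorem dist_YY' (hA : AxisData w J Y Y' Z c e ℓ ℓ₂ ℓp) (i : ℤ) :
    dist (Y i) (Y' i) ≤ ℓp + 2 * c ∧ dist (Y (i + 1)) (Y' i) ≤ ℓp + 2 * c := by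
  have e1 := hA.YY' i i (i + 1) le_rfl (by omega)
  have e2 := hA.dYp i
  have e3 : 0 ≤ dist (Y i) (Y' i) := dist_nonneg
  have e4 : 0 ≤ dist (Y (i + 1)) (Y' i) := dist_nonneg
  unfold gp at e1
  constructor <;> linarith

theorem dist_YZ (hA : AxisData w J Y Y' Z c e ℓ ℓ₂ ℓp) (i : ℤ) :
    dist (Y i) (Z (i + 1)) ≤ ℓp + 2 * e ∧ dist (Y (i + 1)) (Z (i + 1)) ≤ ℓp + 2 * e := by
  have e1 := hA.YZ i (i + 1) (i + 1) (by omega) le_rfl
  have e2 := hA.dYp i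
  have e3 : 0 ≤ dist (Y i) (Z (i + 1)) := dist_nonneg
  have e4 : 0 ≤ dist (Y (i + 1)) (Z (i + 1)) := dist_nonneg
  unfold gp at e1
  constructor <;> linarith

theorem lamY'_lo (hA : AxisData w J Y Y' Z c e ℓ ℓ₂ ℓp) {a b i : ℤ} (h1 : a ≤ i)
    (h2 : i < b) :
    lam (Y a) (Y b) (Y i) + dist (Y i) (Y' i) - 3 * c ≤ lam (Y a) (Y b) (Y' i) := by
  have e1 := hA.YY' i i b le_rfl h2
  have e2 := nuY hA h1 h2.le
  have e3 := nu_nonneg (Y a) (Y b) (Y' i)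
  have e5 := dist_right (Y a) (Y b) (Y i)
  have e6 := dist_right (Y a) (Y b) (Y' i)
  unfold gp at e1
  rw [dist_comm (Y b) (Y' i)] at e1
  linarith

theorem lamZ_hi (hA : AxisData w J Y Y' Z c e ℓ ℓ₂ ℓp) {a b j : ℤ} (h1 : a < j)
    (h2 : j ≤ b) :
    lam (Y a) (Y b) (Z j) ≤ lam (Y a) (Y b) (Y j) - ℓ₂ + 2 * e + c := by
  have e1 := hA.YZ a j j h1 le_rfl
  have e2 := nuY hA (a := a) (b := b) h1.le h2
  have e3 := nu_nonneg (Y a) (Y b) (Z j)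
  have e5 := dist_left (Y a) (Y b) (Y j)
  have e6 := dist_left (Y a) (Y b) (Z j)
  have e7 := hA.dZY j
  unfold gp at e1
  rw [dist_comm (Y j) (Z j), dist_comm (Y a) (Z j), dist_comm (Y a) (Y j)] at e1
  linarith

theorem lamZ_lo' (hA : AxisData w J Y Y' Z c e ℓ ℓ₂ ℓp)
    (hYZ : ∀ i : ℤ, gp (Y i) (Z (i + 1)) (Y' i) ≤ e) {a b j : ℤ} (h1 : a < j)
    (h2 : j ≤ b) :
    lam (Y a) (Y b) (Y' (j - 1)) + ℓ₂ - 4 * e - c ≤ lam (Y a) (Y b) (Z j) := by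
  have e1 := hA.YZ (j - 1) j b (by omega) h2
  have e2 := nuY hA (a := a) (b := b) (i := j - 1) (by omega) (by omega)
  have e3 := nu_nonneg (Y a) (Y b) (Z j)
  have e5 := dist_right (Y a) (Y b) (Y (j - 1))
  have e6 := dist_right (Y a) (Y b) (Z j)
  have e7 := hYZ (j - 1)
  have e8 := hA.dYZ (j - 1)
  have e9 := lam_lip (Y a) (Y b) (Y' (j - 1)) (Y (j - 1))
  rw [dist_comm (Y' (j - 1)) (Y (j - 1))] at e9
  rw [sub_add_cancel] at e7 e8
  unfold gp at e1 e7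
  rw [dist_comm (Y b) (Z j)] at e1
  rw [dist_comm (Z j) (Y' (j - 1))] at e7
  linarith

theorem lamZ_lo (hA : AxisData w J Y Y' Z c e ℓ ℓ₂ ℓp)
    (hYZ : ∀ i : ℤ, gp (Y i) (Z (i + 1)) (Y' i) ≤ e) {a b j : ℤ} (h1 : a < j)
    (h2 : j ≤ b) :
    lam (Y a) (Y b) (Y (j - 1)) + ℓ₂ - 4 * e - 4 * c ≤ lam (Y a) (Y b) (Z j) := by
  have e1 := lamZ_lo' hA hYZ h1 h2
  have e2 := lamY'_lo hA (a := a) (b := b) (i := j - 1) (by omega) (by omega)
  have e3 : 0 ≤ dist (Y (j - 1)) (Y' (j - 1)) := dist_nonneg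
  linarith

/-- Enlarging the ends. -/
theorem nu_ends (hA : AxisData w J Y Y' Z c e ℓ ℓ₂ ℓp) {a' a b b' : ℤ} (h1 : a' ≤ a)
    (h2 : a ≤ b) (h3 : b ≤ b') (x : X) :
    nu (Y a') (Y b') x ≤ nu (Y a) (Y b) x + 2 * c := by
  have e1 := hA.YY a' a b' h1 (by omega)
  have e2 := hA.YY a b b' h2 h3
  have e3 := dist_triangle (Y a') (Y a) x
  have e4 := dist_triangle (Y b') (Y b) x
  have e5 : dist (Y b') (Y a) = dist (Y a) (Y b') := dist_comm _ _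
  unfold nu gp at *
  linarith

end axis

end Pool.Agent.H55.WPD
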