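import Pool.Agent.H55.WPD.Ov2

/-!
The window of an element with a long overlap, and the far case.
-/

namespace Pool.Agent.H55.WPD

open Pool.Agent.H88.WPD

section axis

variable {X : Type*} [PseudoMetricSpace X] {G : Type*} [Group G] [MulAction G X] {δ : ℝ}
variable {w : G} {J : ℕ} {Y Y' Z : ℤ → X} {c e ℓ ℓ₂ ℓp : ℝ}

theorem window_core (hA : AxisData w J Y Y' Z c e ℓ ℓ₂ ℓp) (hδc : δ ≤ c)
    (hce : c ≤ e) (hℓ₂ : 2 * c ≤ ℓ₂) (hℓp : 0 < ℓp)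
    {a b : ℤ} (hab : a < b) {f : G} {lo hi : ℝ} (h0 : 0 ≤ lo) (h1 : hi ≤ dist (Y a) (Y b))
    {r : ℕ} (h2 : lo + (r + 5) * ℓp + 4 * e ≤ hi)
    (hp : ∀ p, lo ≤ lam (Y a) (Y b) p → lam (Y a) (Y b) p ≤ hi →
      nu (Y a) (Y b) (f • p) ≤ nu (Y a) (Y b) p + 3 * δ) :
    ∃ i0 : ℤ, a < i0 ∧ i0 + r < b ∧ ∀ i, i0 ≤ i → i ≤ i0 + r →
      nu (Y a) (Y b) (f • Y i) ≤ 4 * c ∧ nu (Y a) (Y b) (f • Y' i) ≤ 4 * c ∧
      nu (Y a) (Y b) (f • Z i) ≤ e + 3 * c := by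
  have hr : (0 : ℝ) ≤ r * ℓp := by positivity
  have he0 : 0 ≤ c := le_trans (nu_nonneg _ _ _) (nuY hA (a := a) (b := b) (le_refl a) hab.le)
  obtain ⟨k, hk1, hk2, hk3, hk4⟩ := int_step (fun i => lam (Y a) (Y b) (Y i)) hab
    (t := lo + ℓp + 2 * e) (by
      show lam (Y a) (Y b) (Y a) ≤ _
      rw [lam_self]; linarith) (by
      show _ ≤ lam (Y a) (Y b) (Y b)
      rw [lam_right]; linarith)
  have hk3' : lam (Y a) (Y b) (Y k) ≤ lo + ℓp + 2 * e := hk3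
  have hk4' : lo + ℓp + 2 * e ≤ lam (Y a) (Y b) (Y (k + 1)) := hk4
  have hk5 := (lamY_step hA hk1 hk2).2
  have hbr : k + 1 + r < b := by
    by_contra hcon
    push Not at hcon
    have h3 := lamY_hi hA (a := a) (b := b) (i := k + 1) (k := b) (by omega) hk2 le_rfl
    rw [lam_right] at h3
    have h4 : ((b : ℝ) - ((k + 1 : ℤ) : ℝ)) * ℓp ≤ r * ℓp := by
      apply mul_le_mul_of_nonneg_right _ hℓp.le
      have : (b : ℝ) ≤ ((k + 1 + r : ℤ) : ℝ) := by exact_mod_cast hcon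
      push_cast at this ⊢
      linarith
    linarith
  refine ⟨k + 1, by omega, hbr, fun i hi1 hi2 => ?_⟩
  have g1 := lamY_hi hA (a := a) (b := b) (i := k + 1) (k := i) (by omega) hi1 (by omega)
  have g2 : ((i : ℝ) - ((k + 1 : ℤ) : ℝ)) * ℓp ≤ r * ℓp := by
    apply mul_le_mul_of_nonneg_right _ hℓp.le
    have : (i : ℝ) ≤ ((k + 1 + r : ℤ) : ℝ) := by exact_mod_cast hi2
    push_cast at this ⊢
    linarith
  have g3 := lamY_mono hA (by linarith) (a := a) (b := b) (i := k + 1) (k := i) (by omega) hi1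
    (by omega)
  have d1 := (dist_YY' hA i).1
  have d2 := (dist_YZ hA (i - 1)).2
  rw [sub_add_cancel] at d2
  have l1 := lam_lip' (Y a) (Y b) (Y i) (Y' i)
  have l2 := lam_lip' (Y a) (Y b) (Y i) (Z i)
  rw [abs_le] at l1 l2
  refine ⟨?_, ?_, ?_⟩
  · have := hp (Y i) (by linarith) (by linarith)
    have h5 := nuY hA (a := a) (b := b) (i := i) (by omega) (by omega)
    linarith
  · have := hp (Y' i) (by linarith [l1.1, l1.2]) (by linarith [l1.1, l1.2])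
    have h5 := nuY' hA (a := a) (b := b) (i := i) (by omega) (by omega)
    linarith
  · have := hp (Z i) (by linarith [l2.1, l2.2]) (by linarith [l2.1, l2.2])
    have h5 := nuZ hA (a := a) (b := b) (i := i) (by omega) (by omega)
    linarith

variable [IsIsometricSMul G X]

theorem window (hX : Hyp X δ) (hA : AxisData w J Y Y' Z c e ℓ ℓ₂ ℓp) (hδc : δ ≤ c)
    (hc0 : 0 < c) (hce : c ≤ e) (hℓ₂ : 2 * c ≤ ℓ₂) (hℓp : 0 < ℓp) {θ : ℝ} {r : ℕ}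
    (hθ : (r + 5) * ℓp + 6 * e ≤ θ) (g : G) (N : ℕ)
    (hg : 2 * θ < |dist (w ^ N • Y 0) (g • (w ^ N)⁻¹ • Y 0)
      + dist ((w ^ N)⁻¹ • Y 0) (g • w ^ N • Y 0) - dist (w ^ N • Y 0) (g • w ^ N • Y 0)
      - dist ((w ^ N)⁻¹ • Y 0) (g • (w ^ N)⁻¹ • Y 0)|) :
    ∃ I i0 : ℤ, -I < i0 ∧ i0 + r < I ∧ ∀ i, i0 ≤ i → i ≤ i0 + r →
      nu (Y (-I)) (Y I) (g⁻¹ • Y i) ≤ 4 * c ∧ nu (Y (-I)) (Y I) (g⁻¹ • Y' i) ≤ 4 * c ∧
      nu (Y (-I)) (Y I) (g⁻¹ • Z i) ≤ e + 3 * c := by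
  set I : ℤ := (N : ℤ) * J with hI
  have eB : w ^ N • Y 0 = Y I := by
    have := zpow_ax hA.wY (N : ℤ) 0
    rw [zpow_natCast, zero_add] at this
    exact this
  have eA : (w ^ N)⁻¹ • Y 0 = Y (-I) := by
    have := zpow_ax hA.wY (-(N : ℤ)) 0
    rw [zpow_neg, zpow_natCast, zero_add, neg_mul] at this
    exact this
  rw [eA, eB] at hg
  set A := Y (-I) with hAdef
  set B := Y I with hBdef
  have hδ0 := hX.nonneg A
  have hθ0 : 0 ≤ (r : ℝ) * ℓp := by positivity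
  have hIpos : -I < I := by
    by_contra hcon
    push Not at hcon
    have hI0 : 0 ≤ I := by positivity
    have : I = 0 := by omega
    have hAB : A = B := by rw [hAdef, hBdef, this, neg_zero]
    rw [hAB] at hg
    simp only [add_sub_cancel_right, sub_self, abs_zero] at hg
    linarith
  have q1 : dist B (g • A) = dist A B - lam A B (g • A) + nu A B (g • A) := by
    rw [dist_comm]; exact dist_right _ _ _
  have q2 : dist A (g • B) = lam A B (g • B) + nu A B (g • B) := by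
    rw [dist_comm]; exact dist_left _ _ _
  have q3 : dist B (g • B) = dist A B - lam A B (g • B) + nu A B (g • B) := by
    rw [dist_comm]; exact dist_right _ _ _
  have q4 : dist A (g • A) = lam A B (g • A) + nu A B (g • A) := by
    rw [dist_comm]; exact dist_left _ _ _
  have q5 : dist B (g • A) + dist A (g • B) - dist B (g • B) - dist A (g • A) =
      2 * (lam A B (g • B) - lam A B (g • A)) := by
    rw [q1, q2, q3, q4]; ring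
  rw [q5, abs_mul, abs_two] at hg
  have hg' : θ < |lam A B (g • B) - lam A B (g • A)| := by linarith
  have key : ∃ lo hi : ℝ, 0 ≤ lo ∧ hi ≤ dist A B ∧ lo + (r + 5) * ℓp + 4 * e ≤ hi ∧
      ∀ p, lo ≤ lam A B p → lam A B p ≤ hi → nu A B (g⁻¹ • p) ≤ nu A B p + 3 * δ := by
    have b1 := lam_nonneg A B (g • A)
    have b2 := lam_nonneg A B (g • B)
    have b3 := lam_le A B (g • A)
    have b4 := lam_le A B (g • B)
    have e1 : ∀ p, nu A B (g⁻¹ • p) = gp (g • A) (g • B) p := by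
      intro p
      unfold nu
      rw [← gp_smul (X := X) g, smul_inv_smul]
    rcases abs_cases (lam A B (g • B) - lam A B (g • A)) with ⟨h5, h6⟩ | ⟨h5, h6⟩
    · rw [h5] at hg'
      refine ⟨lam A B (g • A), lam A B (g • B), b1, b4, by linarith, ?_⟩
      intro p hp1 hp2
      rw [e1]
      exact gp_le_nu hX A B _ _ p hp1 hp2 (by linarith)
    · rw [h5] at hg'
      refine ⟨lam A B (g • B), lam A B (g • A), b2, b3, by linarith, ?_⟩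
      intro p hp1 hp2
      rw [e1, gp_comm]
      exact gp_le_nu hX A B _ _ p hp1 hp2 (by linarith)
  obtain ⟨lo, hi, k1, k2, k3, k4⟩ := key
  obtain ⟨i0, j1, j2, j3⟩ := window_core hA hδc hce hℓ₂ hℓp hIpos (f := g⁻¹) k1 k2 k3 k4
  exact ⟨I, i0, j1, j2, j3⟩

/-- The far case. -/
theorem far (hX : Hyp X δ) (hA : AxisData w J Y Y' Z c e ℓ ℓ₂ ℓp)
    (hYZ : ∀ i : ℤ, gp (Y i) (Z (i + 1)) (Y' i) ≤ e)
    {c₃ : ℝ} {n₀ : ℕ} (hδc : δ ≤ c)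
    (hc0 : 0 < c) (he : 10000 * c ≤ e) (hℓ : 1000 * e ≤ ℓ) (hℓ₂ : 1000 * e ≤ ℓ₂)
    (hc₃ : 1000 * c ≤ c₃)
    (hF : ∀ (j : ℤ) (h : G), gp (Z (j + 1 - J)) (Z j) (h • Y (j - 1)) ≤ c₃ →
      gp (Z (j + 1 - J)) (Z j) (h • Y' (j - 1)) ≤ c₃ →
      gp (Z (j + 1)) (h⁻¹ • Z j) (Z j) ≤ e ∧ gp (Z (j + 1)) (h⁻¹ • Z (j + 1 - J)) (Z j) ≤ e ∧
      ∀ m : ℕ, m ≤ n₀ → gp (Z (j + 1)) ((h ^ m)⁻¹ • Y (j - 1)) (Z j) ≤ e)
    {a b : ℤ} (j l : ℤ) (h : G) (ha : a < j + 1 + (l - 1) * J) (hb : j + l * J ≤ b)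
    (hJ : 3 ≤ J)
    (n1 : nu (Y a) (Y b) (h • Y (j - 1)) ≤ 10 * c)
    (n2 : nu (Y a) (Y b) (h • Y' (j - 1)) ≤ 10 * c)
    (n3 : nu (Y a) (Y b) (h • Z (j + 1)) ≤ e + 10 * c)
    (m1 : lam (Y a) (Y b) (Y (j + 1 + (l - 1) * J)) ≤ lam (Y a) (Y b) (h • Y (j - 1)))
    (m1' : lam (Y a) (Y b) (h • Y (j - 1)) ≤ lam (Y a) (Y b) (Y (j - 1 + l * J)))
    (m2 : lam (Y a) (Y b) (Y (j + 1 + (l - 1) * J)) ≤ lam (Y a) (Y b) (h • Y' (j - 1)))
    (m2' : lam (Y a) (Y b) (h • Y' (j - 1)) ≤ lam (Y a) (Y b) (Y (j - 1 + l * J)))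
    (m3 : lam (Y a) (Y b) (Y (j + 1 + (l - 1) * J)) ≤ lam (Y a) (Y b) (h • Z (j + 1)))
    (m3' : lam (Y a) (Y b) (h • Z (j + 1)) ≤ lam (Y a) (Y b) (Y (j - 1 + l * J))) : False := by
  have hδ0 := hX.nonneg (Y 0)
  set u := Z (j + 1 + (l - 1) * J) with hu
  set v := Z (j + l * J) with hv
  have hJ' : (3 : ℤ) ≤ J := by exact_mod_cast hJ
  have hle : j + 1 + (l - 1) * J ≤ b := by
    have : (l - 1) * (J : ℤ) = l * J - J := by ring
    omega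
  have ha' : a < j + l * J := by
    have : (l - 1) * (J : ℤ) = l * J - J := by ring
    omega
  have u1 := lamZ_hi hA (a := a) (b := b) ha hle
  have v1 := lamZ_lo hA hYZ (a := a) (b := b) (j := j + l * J) ha' hb
  have ei : j + l * J - 1 = j - 1 + l * J := by ring
  rw [ei] at v1
  have tr : ∀ x, gp (Z (j + 1 - J)) (Z j) (((w ^ l)⁻¹ * h) • x) = gp u v (h • x) := by
    intro x
    rw [mul_smul, ← gp_smul (X := X) (w ^ l), smul_inv_smul, zpow_ax hA.wZ, zpow_ax hA.wZ]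
    congr 2
    ring
  have hE1 : gp (Z (j + 1 - J)) (Z j) (((w ^ l)⁻¹ * h) • Y (j - 1)) ≤ c₃ := by
    rw [tr]
    have := gp_le_nu hX (Y a) (Y b) u v (h • Y (j - 1)) (by linarith) (by linarith) (by linarith)
    linarith
  have hE2 : gp (Z (j + 1 - J)) (Z j) (((w ^ l)⁻¹ * h) • Y' (j - 1)) ≤ c₃ := by
    rw [tr]
    have := gp_le_nu hX (Y a) (Y b) u v (h • Y' (j - 1)) (by linarith) (by linarith) (by linarith)
    linarith
  have hE3 : gp (Z (j + 1 - J)) (Z j) (((w ^ l)⁻¹ * h) • Z (j + 1)) ≤ e + 13 * c := by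
    rw [tr]
    have := gp_le_nu hX (Y a) (Y b) u v (h • Z (j + 1)) (by linarith) (by linarith) (by linarith)
    linarith
  obtain ⟨f1, f2, -⟩ := hF j ((w ^ l)⁻¹ * h) hE1 hE2
  set h' := (w ^ l)⁻¹ * h with hh'
  have a1 := gp_add (h'⁻¹ • Z j) (Z j) (Z (j + 1))
  have a2 := gp_add (h'⁻¹ • Z (j + 1 - J)) (Z j) (Z (j + 1))
  rw [gp_comm (h'⁻¹ • Z j) (Z (j + 1))] at a1
  rw [gp_comm (h'⁻¹ • Z (j + 1 - J)) (Z (j + 1))] at a2
  have a3 := hA.dZ j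
  have a4 := hX (h'⁻¹ • Z (j + 1 - J)) (Z j) (h'⁻¹ • Z j) (Z (j + 1))
  have a5 : gp (h'⁻¹ • Z (j + 1 - J)) (h'⁻¹ • Z j) (Z (j + 1)) =
      gp (Z (j + 1 - J)) (Z j) (h' • Z (j + 1)) := by
    rw [← gp_smul (X := X) h', smul_inv_smul, smul_inv_smul]
  rw [a5] at a4
  have a6 : ℓ - e ≤ min (gp (h'⁻¹ • Z (j + 1 - J)) (Z j) (Z (j + 1)))
      (gp (Z j) (h'⁻¹ • Z j) (Z (j + 1))) := by
    rw [gp_comm (Z j)]
    exact le_min (by linarith) (by linarith)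
  linarith

/-- In the window the image of the axis follows the axis up to a bounded number of indices. -/
theorem near (hX : Hyp X δ) (hA : AxisData w J Y Y' Z c e ℓ ℓ₂ ℓp)
    (hYZ : ∀ i : ℤ, gp (Y i) (Z (i + 1)) (Y' i) ≤ e)
    {c₃ : ℝ} {n₀ q : ℕ} (hδc : δ ≤ c)
    (hc0 : 0 < c) (he : 10000 * c ≤ e) (hℓ : 1000 * e ≤ ℓ) (hℓ₂ : 1000 * e ≤ ℓ₂)
    (hc₃ : 1000 * c ≤ c₃) (hℓp : ℓ ≤ ℓp) (hq : 10 * ℓp ≤ q * ℓ₂) (hJ : 2 * q + 10 ≤ J)
    (hF : ∀ (j : ℤ) (h : G), gp (Z (j + 1 - J)) (Z j) (h • Y (j - 1)) ≤ c₃ →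
      gp (Z (j + 1 - J)) (Z j) (h • Y' (j - 1)) ≤ c₃ →
      gp (Z (j + 1)) (h⁻¹ • Z j) (Z j) ≤ e ∧ gp (Z (j + 1)) (h⁻¹ • Z (j + 1 - J)) (Z j) ≤ e ∧
      ∀ m : ℕ, m ≤ n₀ → gp (Z (j + 1)) ((h ^ m)⁻¹ • Y (j - 1)) (Z j) ≤ e)
    {a b : ℤ} (j i : ℤ) (h : G) (ha : a + J + q ≤ i) (hb : i + J + q + 2 ≤ b)
    (n1 : nu (Y a) (Y b) (h • Y (j - 1)) ≤ 10 * c)
    (n2 : nu (Y a) (Y b) (h • Y' (j - 1)) ≤ 10 * c)
    (n3 : nu (Y a) (Y b) (h • Z (j + 1)) ≤ e + 10 * c)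
    (m1 : lam (Y a) (Y b) (Y i) ≤ lam (Y a) (Y b) (h • Y j))
    (m2 : lam (Y a) (Y b) (h • Y j) ≤ lam (Y a) (Y b) (Y (i + 1))) :
    ∃ l s : ℤ, i = j + l * J + s ∧ |s| ≤ q + 3 := by
  have hJ0 : (0 : ℤ) < J := by omega
  by_contra hcon
  push Not at hcon
  set t := (i - j) % (J : ℤ) with ht
  set l := (i - j) / (J : ℤ) + 1 with hl
  have e1 : (J : ℤ) * ((i - j) / (J : ℤ)) + t = i - j := by
    have := Int.mul_ediv_add_emod (i - j) (J : ℤ)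
    exact this
  have e2 : 0 ≤ t := Int.emod_nonneg _ hJ0.ne'
  have e3 : t < J := Int.emod_lt_of_pos _ hJ0
  have e4 : (l - 1) * (J : ℤ) = (J : ℤ) * ((i - j) / (J : ℤ)) := by
    rw [hl]; ring
  have e5 : l * (J : ℤ) = (l - 1) * J + J := by ring
  have c1 := hcon (l - 1) t (by omega)
  have c2 := hcon l (t - J) (by omega)
  rw [abs_of_nonneg e2] at c1
  rw [abs_of_neg (by omega)] at c2
  have hq' : (ℓp + 2 * e) + 0 ≤ (q : ℝ) * (ℓ₂ - 2 * c) := by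
    have : (q : ℝ) * (2 * c) ≤ q * (ℓ₂ / 10) := by
      apply mul_le_mul_of_nonneg_left _ (Nat.cast_nonneg q)
      linarith
    nlinarith
  have hqn : (0 : ℝ) ≤ q := Nat.cast_nonneg q
  have lo1 := lamY_lo hA (a := a) (b := b) (i := i - q) (k := i) (by omega) (by omega) (by omega)
  have hi1 := lamY_lo hA (a := a) (b := b) (i := i + 1) (k := i + 1 + q) (by omega) (by omega)
    (by omega)
  have lo2 := lamY_mono hA (by linarith) (a := a) (b := b) (i := j + 1 + (l - 1) * J)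
    (k := i - q) (by omega) (by omega) (by omega)
  have hi2 := lamY_mono hA (by linarith) (a := a) (b := b) (i := i + 1 + q)
    (k := j - 1 + l * J) (by omega) (by omega) (by omega)
  push_cast at lo1 hi1
  have lo1' : lam (Y a) (Y b) (Y (i - q)) + (ℓp + 2 * e) ≤ lam (Y a) (Y b) (Y i) := by
    have : ((i : ℝ) - (i - q)) * (ℓ₂ - 2 * c) = q * (ℓ₂ - 2 * c) := by ring
    linarith
  have hi1' : lam (Y a) (Y b) (Y (i + 1)) + (ℓp + 2 * e) ≤ lam (Y a) (Y b) (Y (i + 1 + q)) := by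
    have : ((i : ℝ) + 1 + q - (i + 1)) * (ℓ₂ - 2 * c) = q * (ℓ₂ - 2 * c) := by ring
    linarith
  have d1 := hA.dYp (j - 1)
  have d2 := (dist_YY' hA (j - 1)).2
  have d3 := (dist_YZ hA j).1
  rw [sub_add_cancel] at d1 d2
  have l1 := lam_lip' (Y a) (Y b) (h • Y j) (h • Y (j - 1))
  have l2 := lam_lip' (Y a) (Y b) (h • Y j) (h • Y' (j - 1))
  have l3 := lam_lip' (Y a) (Y b) (h • Y j) (h • Z (j + 1))
  rw [dist_smul] at l1 l2 l3
  rw [dist_comm (Y j)] at l1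
  rw [abs_le] at l1 l2 l3
  refine far hX hA hYZ hδc hc0 he hℓ hℓ₂ hc₃ hF j l h (a := a) (b := b) (by omega) (by omega)
    (by omega) n1 n2 n3 ?_ ?_ ?_ ?_ ?_ ?_
  · linarith [l1.1, l1.2]
  · linarith [l1.1, l1.2]
  · linarith [l2.1, l2.2]
  · linarith [l2.1, l2.2]
  · linarith [l3.1, l3.2]
  · linarith [l3.1, l3.2]

end axis

end Pool.Agent.H55.WPD
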