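import Pool.Agent.H55.WPD.Ov3

/-!
The near case: iteration, and membership in E.
-/

namespace Pool.Agent.H55.WPD

open Pool.Agent.H88.WPD

section axis

variable {X : Type*} [PseudoMetricSpace X] {G : Type*} [Group G] [MulAction G X] {δ : ℝ}
variable {w : G} {J : ℕ} {Y Y' Z : ℤ → X} {c e ℓ ℓ₂ ℓp : ℝ}

/-- An element moving the axis backwards by a moderate amount contradicts the fellow
travelling condition. -/
theorem iter (hX : Hyp X δ) (hA : AxisData w J Y Y' Z c e ℓ ℓ₂ ℓp)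
    (hYZ : ∀ i : ℤ, gp (Y i) (Z (i + 1)) (Y' i) ≤ e)
    {c₃ K₁ : ℝ} {n₀ q : ℕ} (hδc : δ ≤ c)
    (hc0 : 0 < c) (he : 10000 * c ≤ e) (hℓ : 1000 * e ≤ ℓ) (hℓ₂ : 1000 * e ≤ ℓ₂)
    (hc₃ : 1000 * c ≤ c₃) (hℓp : ℓ ≤ ℓp) (hK₁ : 1000000 * c * ℓp ≤ K₁ * ℓ)
    (hn : 100 * ℓp ≤ K₁ * n₀) (hJq : (q + 8) * ℓp ≤ ((J : ℝ) - 2) * (ℓ₂ - 2 * c))
    (hJ2 : 2 ≤ J)
    (hF : ∀ (j : ℤ) (h : G), gp (Z (j + 1 - J)) (Z j) (h • Y (j - 1)) ≤ c₃ →
      gp (Z (j + 1 - J)) (Z j) (h • Y' (j - 1)) ≤ c₃ →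
      gp (Z (j + 1)) (h⁻¹ • Z j) (Z j) ≤ e ∧ gp (Z (j + 1)) (h⁻¹ • Z (j + 1 - J)) (Z j) ≤ e ∧
      ∀ m : ℕ, m ≤ n₀ → gp (Z (j + 1)) ((h ^ m)⁻¹ • Y (j - 1)) (Z j) ≤ e)
    {a b : ℤ} (j : ℤ) (h : G) (ha : a + J + 5 ≤ j) (hb : j + 5 ≤ b) {σ : ℝ} (hσ1 : K₁ < σ)
    (hσ2 : σ ≤ (q + 6) * ℓp)
    (H : ∀ x, lam (Y a) (Y b) (Y (j - 2)) ≤ lam (Y a) (Y b) x →
      lam (Y a) (Y b) x ≤ lam (Y a) (Y b) (Y (j + 2)) →
      nu (Y a) (Y b) (h • x) ≤ nu (Y a) (Y b) x + 72 * c ∧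
      nu (Y a) (Y b) (h⁻¹ • x) ≤ nu (Y a) (Y b) x + 72 * c ∧
      |lam (Y a) (Y b) (h • x) - lam (Y a) (Y b) x + σ| ≤ 200 * c ∧
      |lam (Y a) (Y b) (h⁻¹ • x) - lam (Y a) (Y b) x - σ| ≤ 200 * c) : False := by
  have hδ0 := hX.nonneg (Y 0)
  have hℓ0 : 0 < ℓ := by linarith
  have hℓp0 : 0 < ℓp := by linarith
  have hK0 : 0 < K₁ := by
    by_contra hcon
    push Not at hcon
    have h1 : K₁ * ℓ ≤ 0 := mul_nonpos_of_nonpos_of_nonneg hcon hℓ0.le
    have h2 : 0 < 1000000 * c * ℓp := by positivity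
    linarith
  have hKc : 1000000 * c ≤ K₁ := by
    have h1 : K₁ * ℓ ≤ K₁ * ℓp := mul_le_mul_of_nonneg_left hℓp hK0.le
    have h2 : 1000000 * c * ℓp ≤ K₁ * ℓp := le_trans hK₁ h1
    exact le_of_mul_le_mul_right h2 hℓp0
  have hqn : (0 : ℝ) ≤ q := Nat.cast_nonneg q
  -- positions
  have p1 := (lamY_step hA (a := a) (b := b) (i := j - 2) (by omega) (by omega))
  have p2 := (lamY_step hA (a := a) (b := b) (i := j - 1) (by omega) (by omega))
  have p3 := (lamY_step hA (a := a) (b := b) (i := j) (by omega) (by omega))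
  have p4 := (lamY_step hA (a := a) (b := b) (i := j + 1) (by omega) (by omega))
  have ei1 : j - 2 + 1 = j - 1 := by ring
  have ei2 : j - 1 + 1 = j := by ring
  have ei3 : j + 1 + 1 = j + 2 := by ring
  rw [ei1] at p1
  rw [ei2] at p2
  rw [ei3] at p4
  have z1 := lamZ_hi hA (a := a) (b := b) (j := j) (by omega) (by omega)
  have z2 := lamZ_lo hA hYZ (a := a) (b := b) (j := j) (by omega) (by omega)
  have z2' := lamZ_lo' hA hYZ (a := a) (b := b) (j := j) (by omega) (by omega)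
  have z3 := lamZ_hi hA (a := a) (b := b) (j := j + 1) (by omega) (by omega)
  have z4 := lamZ_lo hA hYZ (a := a) (b := b) (j := j + 1) (by omega) (by omega)
  have ei4 : j + 1 - 1 = j := by ring
  rw [ei4] at z4
  have y1 := lamY'_lo hA (a := a) (b := b) (i := j - 1) (by omega) (by omega)
  have y0 : 0 ≤ dist (Y (j - 1)) (Y' (j - 1)) := dist_nonneg
  have nz1 := nuZ hA (a := a) (b := b) (i := j) (by omega) (by omega)
  have nz2 := nuZ hA (a := a) (b := b) (i := j + 1) (by omega) (by omega)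
  have ny1 := nuY hA (a := a) (b := b) (i := j - 1) (by omega) (by omega)
  have ny2 := nuY' hA (a := a) (b := b) (i := j - 1) (by omega) (by omega)
  -- the far end
  have w1 := lamZ_hi hA (a := a) (b := b) (j := j + 1 - J) (by omega) (by omega)
  have w2 := lamY_lo hA (a := a) (b := b) (i := j + 1 - J) (k := j - 1) (by omega) (by omega)
    (by omega)
  push_cast at w2
  have w3 : ((j : ℝ) - 1 - (j + 1 - J)) * (ℓ₂ - 2 * c) = ((J : ℝ) - 2) * (ℓ₂ - 2 * c) := by ring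
  rw [w3] at w2
  have w4 : (q + 6) * ℓp + 2 * ℓp = (q + 8) * ℓp := by ring
  obtain ⟨h1a, -, h1b, -⟩ := H (Y (j - 1)) (by linarith) (by linarith)
  obtain ⟨h2a, -, h2b, -⟩ := H (Y' (j - 1)) (by linarith) (by linarith)
  rw [abs_le] at h1b h2b
  have pre1 : gp (Z (j + 1 - J)) (Z j) (h • Y (j - 1)) ≤ c₃ := by
    have := gp_le_nu hX (Y a) (Y b) (Z (j + 1 - J)) (Z j) (h • Y (j - 1))
      (by linarith [h1b.1]) (by linarith [h1b.2]) (by linarith [h1b.1, h1b.2])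
    linarith
  have pre2 : gp (Z (j + 1 - J)) (Z j) (h • Y' (j - 1)) ≤ c₃ := by
    have := gp_le_nu hX (Y a) (Y b) (Z (j + 1 - J)) (Z j) (h • Y' (j - 1))
      (by linarith [h2b.1]) (by linarith [h2b.2]) (by linarith [h1b.1, h1b.2])
    linarith
  obtain ⟨-, -, hF3⟩ := hF j h pre1 pre2
  set p : ℕ → X := fun m => (h ^ m)⁻¹ • Y (j - 1) with hp
  have hp0 : p 0 = Y (j - 1) := by simp [hp]
  have hps : ∀ m, p (m + 1) = h⁻¹ • p m := by
    intro m
    simp only [hp]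
    rw [pow_succ, mul_inv_rev, mul_smul]
  set T := lam (Y a) (Y b) (Z j) + ℓ / 4 with hT
  -- the step of the Z's
  have zs : ℓ - 3 * e ≤ lam (Y a) (Y b) (Z (j + 1)) - lam (Y a) (Y b) (Z j) := by
    have h1 := hA.dZ j
    have h2 := tf_up hX (Y a) (Y b) (Z j) (Z (j + 1))
    rw [abs_of_nonpos (by linarith)] at h2
    linarith
  have hTY : T ≤ lam (Y a) (Y b) (Y (j + 2)) := by linarith
  have hTY' : T ≤ lam (Y a) (Y b) (Y (j - 1)) + 2 * ℓp := by linarith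
  have claim : ∀ m : ℕ, (∀ m' < m, lam (Y a) (Y b) (p m') < T) →
      lam (Y a) (Y b) (Y (j - 1)) + m * (σ - 200 * c) ≤ lam (Y a) (Y b) (p m) ∧
      nu (Y a) (Y b) (p m) ≤ c + 72 * c * m := by
    intro m
    induction m with
    | zero =>
      intro _
      rw [hp0]
      constructor
      · simp
      · simpa using ny1
    | succ m ih =>
      intro hm
      obtain ⟨i1, i2⟩ := ih (fun m' hm' => hm m' (by omega))
      have i3 := hm m (by omega)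
      have i4 : 0 ≤ (m : ℝ) * (σ - 200 * c) := by
        apply mul_nonneg (Nat.cast_nonneg m)
        linarith
      obtain ⟨-, h3a, -, h3b⟩ := H (p m) (by linarith) (by linarith)
      rw [abs_le] at h3b
      rw [hps]
      push_cast
      constructor
      · linarith [h3b.1]
      · linarith
  have hex : ∃ m, T ≤ lam (Y a) (Y b) (p m) := by
    by_contra hcon
    push Not at hcon
    obtain ⟨i1, -⟩ := claim n₀ (fun m' _ => hcon m')
    have i2 := hcon n₀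
    have i3 : (n₀ : ℝ) * (K₁ / 2) ≤ n₀ * (σ - 200 * c) := by
      apply mul_le_mul_of_nonneg_left _ (Nat.cast_nonneg n₀)
      linarith
    linarith
  classical
  obtain ⟨m, hm1, hm2⟩ : ∃ m, T ≤ lam (Y a) (Y b) (p m) ∧ ∀ m' < m, lam (Y a) (Y b) (p m') < T :=
    ⟨Nat.find hex, Nat.find_spec hex, fun m' hm' => not_le.1 (Nat.find_min hex hm')⟩
  obtain ⟨i1, i2⟩ := claim m hm2
  have hmpos : 0 < m := by
    rcases Nat.eq_zero_or_pos m with h0 | h0
    · subst h0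
      rw [hp0] at hm1
      linarith
    · exact h0
  obtain ⟨m', rfl⟩ : ∃ m', m = m' + 1 := ⟨m - 1, by omega⟩
  have i3 := hm2 m' (by omega)
  obtain ⟨i4, -⟩ := claim m' (fun k hk => hm2 k (by omega))
  -- bound on the number of steps
  have i5 : (m' : ℝ) * (K₁ / 2) ≤ 2 * ℓp := by
    have : (m' : ℝ) * (K₁ / 2) ≤ m' * (σ - 200 * c) := by
      apply mul_le_mul_of_nonneg_left _ (Nat.cast_nonneg m')
      linarith
    linarith
  have i6 : m' + 1 ≤ n₀ := by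
    by_contra hcon
    push Not at hcon
    have h1 : (n₀ : ℝ) ≤ m' := by exact_mod_cast (by omega : n₀ ≤ m')
    have h2 : K₁ * n₀ ≤ K₁ * m' := mul_le_mul_of_nonneg_left h1 hK0.le
    have h3 : (m' : ℝ) * (K₁ / 2) = K₁ * m' / 2 := by ring
    rw [h3] at i5
    clear * - h2 i5 hn hℓp0
    linarith
  have i7 : 72 * c * m' ≤ ℓ / 1000 := by
    have h1 : (m' : ℝ) * K₁ ≤ 4 * ℓp := by linarith
    have h2 : c * (m' * K₁) ≤ c * (4 * ℓp) := mul_le_mul_of_nonneg_left h1 hc0.le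
    have h3 : (1000000 * (c * m')) * K₁ ≤ (4 * ℓ) * K₁ := by
      have e1 : (1000000 * (c * m')) * K₁ = 1000000 * (c * (m' * K₁)) := by ring
      have e2 : 1000000 * (c * (4 * ℓp)) = 4 * (1000000 * c * ℓp) := by ring
      have e3 : (4 * ℓ) * K₁ = 4 * (K₁ * ℓ) := by ring
      rw [e1, e3]
      clear * - h2 e2 hK₁
      linarith
    have h4 := le_of_mul_le_mul_right h3 hK0
    have h5 : 72 * c * m' = 72 * (c * m') := by ring
    rw [h5]
    clear * - h4 hℓ0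
    linarith
  have hfin := hF3 (m' + 1) i6
  have hfin' : gp (Z (j + 1)) (p (m' + 1)) (Z j) ≤ e := hfin
  push_cast at i2
  have t1 := lam_lip (Y a) (Y b) (Z (j + 1)) (Z j)
  have t2 := lam_lip (Y a) (Y b) (p (m' + 1)) (Z j)
  have t3 := tf_up hX (Y a) (Y b) (Z (j + 1)) (p (m' + 1))
  unfold gp at hfin'
  rcases abs_cases (lam (Y a) (Y b) (Z (j + 1)) - lam (Y a) (Y b) (p (m' + 1))) with
    ⟨h5, h6⟩ | ⟨h5, h6⟩
  · rw [h5] at t3
    linarith
  · rw [h5] at t3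
    linarith

variable [IsIsometricSMul G X]

/-- The near case for an element moving the axis by a bounded number of indices. -/
theorem near_mem (hX : Hyp X δ) (hA : AxisData w J Y Y' Z c e ℓ ℓ₂ ℓp)
    (hYZ : ∀ i : ℤ, gp (Y i) (Z (i + 1)) (Y' i) ≤ e)
    {c₃ K₁ K₂ : ℝ} {n₀ q : ℕ} {E : Set G} (hδc : δ ≤ c)
    (hc0 : 0 < c) (he : 10000 * c ≤ e) (hℓ : 1000 * e ≤ ℓ) (hℓ₂ : 1000 * e ≤ ℓ₂)
    (hc₃ : 1000 * c ≤ c₃) (hℓp : ℓ ≤ ℓp) (hK₁ : 1000000 * c * ℓp ≤ K₁ * ℓ)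
    (hK₂ : K₁ + 1000 * c ≤ K₂)
    (hn : 100 * ℓp ≤ K₁ * n₀) (hJq : (q + 8) * ℓp ≤ ((J : ℝ) - 2) * (ℓ₂ - 2 * c))
    (hJ2 : 2 ≤ J)
    (hF : ∀ (j : ℤ) (h : G), gp (Z (j + 1 - J)) (Z j) (h • Y (j - 1)) ≤ c₃ →
      gp (Z (j + 1 - J)) (Z j) (h • Y' (j - 1)) ≤ c₃ →
      gp (Z (j + 1)) (h⁻¹ • Z j) (Z j) ≤ e ∧ gp (Z (j + 1)) (h⁻¹ • Z (j + 1 - J)) (Z j) ≤ e ∧
      ∀ m : ℕ, m ≤ n₀ → gp (Z (j + 1)) ((h ^ m)⁻¹ • Y (j - 1)) (Z j) ≤ e)
    (hE : ∀ (j : ℤ) (h : G), dist (Y j) (h • Y j) ≤ K₂ → dist (Y' j) (h • Y' j) ≤ K₂ → h ∈ E)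
    {a b : ℤ} (j : ℤ) (h : G) (k : ℕ) (hk3 : 3 ≤ k)
    (hk : (q + 8) * ℓp ≤ ((k : ℝ) - 2) * (ℓ₂ - 2 * c))
    (ha : a + J + 5 + k ≤ j) (hb : j + 5 + k ≤ b)
    (n1 : nu (Y a) (Y b) (h • Y (j - k)) ≤ 12 * c)
    (n2 : nu (Y a) (Y b) (h • Y (j + k)) ≤ 12 * c)
    (ho : lam (Y a) (Y b) (h • Y (j - k)) ≤ lam (Y a) (Y b) (h • Y (j + k)))
    (hτ : |lam (Y a) (Y b) (h • Y j) - lam (Y a) (Y b) (Y j)| ≤ (q + 5) * ℓp) : h ∈ E := by
  have hδ0 := hX.nonneg (Y 0)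
  have hℓ0 : 0 < ℓ := by linarith
  have hℓp0 : 0 < ℓp := by linarith
  have hqn : (0 : ℝ) ≤ q := Nat.cast_nonneg q
  have hqp : (0 : ℝ) ≤ q * ℓp := by positivity
  set u := Y (j - k) with hu
  set v := Y (j + k) with hv
  have nu1 := nuY hA (a := a) (b := b) (i := j - k) (by omega) (by omega)
  have nu2 := nuY hA (a := a) (b := b) (i := j + k) (by omega) (by omega)
  have o1 := lamY_lo hA (a := a) (b := b) (i := j - k) (k := j - 2) (by omega) (by omega)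
    (by omega)
  have o2 := lamY_lo hA (a := a) (b := b) (i := j + 2) (k := j + k) (by omega) (by omega)
    (by omega)
  push_cast at o1 o2
  have e1 : ((j : ℝ) - 2 - (j - k)) * (ℓ₂ - 2 * c) = ((k : ℝ) - 2) * (ℓ₂ - 2 * c) := by ring
  have e2 : ((j : ℝ) + k - (j + 2)) * (ℓ₂ - 2 * c) = ((k : ℝ) - 2) * (ℓ₂ - 2 * c) := by ring
  rw [e1] at o1
  rw [e2] at o2
  have o3 := lamY_mono hA (by linarith) (a := a) (b := b) (i := j - 2) (k := j) (by omega)
    (by omega) (by omega)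
  have o4 := lamY_mono hA (by linarith) (a := a) (b := b) (i := j) (k := j + 2) (by omega)
    (by omega) (by omega)
  set τ := lam (Y a) (Y b) (h • u) - lam (Y a) (Y b) u with hτdef
  have act1 : ∀ x, lam (Y a) (Y b) (Y (j - 2)) ≤ lam (Y a) (Y b) x →
      lam (Y a) (Y b) x ≤ lam (Y a) (Y b) (Y (j + 2)) →
      nu (Y a) (Y b) (h • x) ≤ nu (Y a) (Y b) x + 72 * c ∧
      |lam (Y a) (Y b) (h • x) - lam (Y a) (Y b) x - τ| ≤ 96 * c := by
    intro x hx1 hx2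
    have := act hX (c := 12 * c) (by linarith) (Y a) (Y b) (Y a) (Y b) u v x (h • u) (h • v)
      (h • x) (by linarith) (by linarith) n1 n2 (dist_smul _ _ _) (dist_smul _ _ _)
      (dist_smul _ _ _) ho (by linarith) (by linarith) (by linarith)
    obtain ⟨t1, t2⟩ := this
    refine ⟨by linarith, ?_⟩
    have e3 : lam (Y a) (Y b) (h • x) - lam (Y a) (Y b) x - τ =
      (lam (Y a) (Y b) (h • x) - lam (Y a) (Y b) (h • u)) -
        (lam (Y a) (Y b) x - lam (Y a) (Y b) u) := by rw [hτdef]; ring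
    rw [e3]
    linarith
  have hτ' : |τ| ≤ (q + 5) * ℓp + 96 * c := by
    obtain ⟨-, t2⟩ := act1 (Y j) o3 o4
    rw [abs_le] at hτ t2 ⊢
    constructor <;> linarith [hτ.1, hτ.2, t2.1, t2.2]
  have hτ1 := abs_le.1 hτ'
  -- the length of the window
  have hlen : lam (Y a) (Y b) v - lam (Y a) (Y b) u - 30 * c ≤
      lam (Y a) (Y b) (h • v) - lam (Y a) (Y b) (h • u) := by
    have t1 := tf_up hX (Y a) (Y b) (h • u) (h • v)
    rw [dist_smul, abs_of_nonpos (by linarith)] at t1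
    have t2 := lam_lip (Y a) (Y b) v u
    rw [dist_comm v u] at t2
    linarith
  have act2 : ∀ x, lam (Y a) (Y b) (Y (j - 2)) ≤ lam (Y a) (Y b) x →
      lam (Y a) (Y b) x ≤ lam (Y a) (Y b) (Y (j + 2)) →
      nu (Y a) (Y b) (h⁻¹ • x) ≤ nu (Y a) (Y b) x + 72 * c ∧
      |lam (Y a) (Y b) (h⁻¹ • x) - lam (Y a) (Y b) x + τ| ≤ 96 * c := by
    intro x hx1 hx2
    have d1 : ∀ y, dist y (h⁻¹ • x) = dist (h • y) x := by
      intro y
      rw [← dist_smul h y, smul_inv_smul]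
    have := act hX (c := 12 * c) (by linarith) (Y a) (Y b) (Y a) (Y b) (h • u) (h • v) x u v
      (h⁻¹ • x) n1 n2 (by linarith) (by linarith) (dist_smul _ _ _).symm (d1 _)
      (d1 _) (by linarith) (by linarith [hτ1.1, hτ1.2]) (by linarith [hτ1.1, hτ1.2])
      (by linarith)
    obtain ⟨t1, t2⟩ := this
    refine ⟨by linarith, ?_⟩
    have e3 : lam (Y a) (Y b) (h⁻¹ • x) - lam (Y a) (Y b) x + τ =
      (lam (Y a) (Y b) (h⁻¹ • x) - lam (Y a) (Y b) u) -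
        (lam (Y a) (Y b) x - lam (Y a) (Y b) (h • u)) := by rw [hτdef]; ring
    rw [e3]
    linarith
  by_cases hcase : |τ| ≤ K₁
  · -- small shift
    have hτ2 := abs_le.1 hcase
    have ny := nuY hA (a := a) (b := b) (i := j) (by omega) (by omega)
    have ny' := nuY' hA (a := a) (b := b) (i := j) (by omega) (by omega)
    apply hE j h
    · obtain ⟨t1, t2⟩ := act1 (Y j) o3 o4
      have t3 := tf_up hX (Y a) (Y b) (Y j) (h • Y j)
      have t4 : |lam (Y a) (Y b) (Y j) - lam (Y a) (Y b) (h • Y j)| ≤ K₁ + 96 * c := by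
        rw [abs_le] at t2 ⊢
        constructor <;> linarith [t2.1, t2.2, hτ2.1, hτ2.2]
      linarith
    · have l1 := lamY'_lo hA (a := a) (b := b) (i := j) (by omega) (by omega)
      have l0 : 0 ≤ dist (Y j) (Y' j) := dist_nonneg
      have l2 := lamZ_lo' hA hYZ (a := a) (b := b) (j := j + 1) (by omega) (by omega)
      have l3 := lamZ_hi hA (a := a) (b := b) (j := j + 1) (by omega) (by omega)
      have l4 := lamY_mono hA (by linarith) (a := a) (b := b) (i := j + 1) (k := j + 2) (by omega)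
        (by omega) (by omega)
      have l5 := lamY_lo hA (a := a) (b := b) (i := j - 2) (k := j) (by omega)
        (by omega) (by omega)
      rw [add_sub_cancel_right] at l2
      push_cast at l5
      have l6 : ((j : ℝ) - (j - 2)) * (ℓ₂ - 2 * c) = 2 * (ℓ₂ - 2 * c) := by ring
      rw [l6] at l5
      obtain ⟨t1, t2⟩ := act1 (Y' j) (by linarith) (by linarith)
      have t3 := tf_up hX (Y a) (Y b) (Y' j) (h • Y' j)
      have t4 : |lam (Y a) (Y b) (Y' j) - lam (Y a) (Y b) (h • Y' j)| ≤ K₁ + 96 * c := by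
        rw [abs_le] at t2 ⊢
        constructor <;> linarith [t2.1, t2.2, hτ2.1, hτ2.2]
      linarith
  · exfalso
    push Not at hcase
    rcases abs_cases τ with ⟨h5, h6⟩ | ⟨h5, h6⟩
    · -- forward: use the inverse
      rw [h5] at hcase hτ'
      refine iter hX hA hYZ hδc hc0 he hℓ hℓ₂ hc₃ hℓp hK₁ hn hJq hJ2 hF (a := a) (b := b) j h⁻¹
        (by omega) (by omega) (σ := τ) hcase (by linarith) ?_
      intro x hx1 hx2
      obtain ⟨t1, t2⟩ := act1 x hx1 hx2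
      obtain ⟨t3, t4⟩ := act2 x hx1 hx2
      rw [inv_inv]
      exact ⟨t3, t1, by linarith, by linarith⟩
    · rw [h5] at hcase hτ'
      refine iter hX hA hYZ hδc hc0 he hℓ hℓ₂ hc₃ hℓp hK₁ hn hJq hJ2 hF (a := a) (b := b) j h
        (by omega) (by omega) (σ := -τ) hcase (by linarith) ?_
      intro x hx1 hx2
      obtain ⟨t1, t2⟩ := act1 x hx1 hx2
      obtain ⟨t3, t4⟩ := act2 x hx1 hx2
      refine ⟨t1, t3, ?_, ?_⟩
      · rw [← sub_eq_add_neg]; linarith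
      · rw [sub_neg_eq_add]; linarith

end axis

end Pool.Agent.H55.WPD
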