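import Pool.Agent.H55.WPD.Ov4

/-!
Long overlaps: if no translate of the axis matches a block with the rest of the axis, then
every element whose translate of the axis has a long overlap with the axis is a power of w
times an element of E.
-/

namespace Pool.Agent.H55.WPD

open Pool.Agent.H88.WPD

section axis

variable {X : Type*} [PseudoMetricSpace X] {G : Type*} [Group G] [MulAction G X] {δ : ℝ}
variable {w : G} {J : ℕ} {Y Y' Z : ℤ → X} {c e ℓ ℓ₂ ℓp : ℝ}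
variable [IsIsometricSMul G X]

omit [IsIsometricSMul G X] in
theorem inv_zpow_Y (hA : AxisData w J Y Y' Z c e ℓ ℓ₂ ℓp) (l i : ℤ) :
    (w ^ l)⁻¹ • Y i = Y (i - l * J) := by
  have := zpow_ax hA.wY (-l) i
  rw [zpow_neg] at this
  rw [this]
  congr 1
  ring

/-- The orientation preserving case. -/
theorem op_case (hX : Hyp X δ) (hA : AxisData w J Y Y' Z c e ℓ ℓ₂ ℓp)
    (hYZ : ∀ i : ℤ, gp (Y i) (Z (i + 1)) (Y' i) ≤ e)
    {c₃ K₁ K₂ : ℝ} {n₀ q : ℕ} {E : Set G} (hδc : δ ≤ c)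
    (hc0 : 0 < c) (he : 10000 * c ≤ e) (hℓ : 1000 * e ≤ ℓ) (hℓ₂ : 1000 * e ≤ ℓ₂)
    (hc₃ : 1000 * c ≤ c₃) (hℓp : ℓ ≤ ℓp) (hK₁ : 1000000 * c * ℓp ≤ K₁ * ℓ)
    (hK₂ : K₁ + 1000 * c ≤ K₂)
    (hn : 100 * ℓp ≤ K₁ * n₀) (hJq : (q + 8) * ℓp ≤ ((J : ℝ) - 2) * (ℓ₂ - 2 * c))
    (hJ2 : 2 ≤ J)
    (hF : ∀ (j : ℤ) (h : G), gp (Z (j + 1 - J)) (Z j) (h • Y (j - 1)) ≤ c₃ →
      gp (Z (j + 1 - J)) (Z j) (h • Y' (j - 1)) ≤ c₃ →
      gp (Z (j + 1)) (h⁻¹ • Z j) (Z j) ≤ e ∧ gp (Z (j + 1)) (h⁻¹ • Z (j + 1 - J)) (Z j) ≤ e ∧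
      ∀ m : ℕ, m ≤ n₀ → gp (Z (j + 1)) ((h ^ m)⁻¹ • Y (j - 1)) (Z j) ≤ e)
    (hE : ∀ (j : ℤ) (h : G), dist (Y j) (h • Y j) ≤ K₂ → dist (Y' j) (h • Y' j) ≤ K₂ → h ∈ E)
    {a b : ℤ} (j i l s : ℤ) (f : G) (his : i = j + l * J + s) (hs : |s| ≤ q + 3)
    (k k₂ : ℕ) (hk3 : 3 ≤ k)
    (hk : (q + 8) * ℓp ≤ ((k : ℝ) - 2) * (ℓ₂ - 2 * c))
    (hk₂ : k * ℓp + 20 * c ≤ k₂ * (ℓ₂ - 2 * c))
    (ha : a + J + 5 + k + k₂ + q + 3 ≤ j) (hb : j + 5 + k + k₂ + q + 3 ≤ b)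
    (ha' : a + k₂ ≤ i) (hb' : i + 1 + k₂ ≤ b)
    (n1 : nu (Y a) (Y b) (f • Y (j - k)) ≤ 6 * c)
    (n2 : nu (Y a) (Y b) (f • Y (j + k)) ≤ 6 * c)
    (m1 : lam (Y a) (Y b) (Y i) ≤ lam (Y a) (Y b) (f • Y j))
    (m2 : lam (Y a) (Y b) (f • Y j) ≤ lam (Y a) (Y b) (Y (i + 1)))
    (ho : lam (Y a) (Y b) (f • Y (j - k)) + 100 * c ≤ lam (Y a) (Y b) (f • Y (j + k))) :
    (w ^ l)⁻¹ * f ∈ E := by
  have hδ0 := hX.nonneg (Y 0)
  have hℓp0 : 0 < ℓp := by linarith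
  have hkn : (0 : ℝ) ≤ k * ℓp := by positivity
  rw [abs_le] at hs
  have o1 := lamY_lo hA (a := a) (b := b) (i := i - k₂) (k := i) (by omega) (by omega)
    (by omega)
  have o2 := lamY_lo hA (a := a) (b := b) (i := i + 1) (k := i + 1 + k₂) (by omega) (by omega)
    (by omega)
  push_cast at o1 o2
  have e1 : ((i : ℝ) - (i - k₂)) * (ℓ₂ - 2 * c) = k₂ * (ℓ₂ - 2 * c) := by ring
  have e2 : ((i : ℝ) + 1 + k₂ - (i + 1)) * (ℓ₂ - 2 * c) = k₂ * (ℓ₂ - 2 * c) := by ring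
  rw [e1] at o1
  rw [e2] at o2
  have st := lamY_step hA (a := a) (b := b) (i := i) (by omega) (by omega)
  have nu1 := nuY hA (a := a) (b := b) (i := i - k₂) (by omega) (by omega)
  have nu2 := nuY hA (a := a) (b := b) (i := i + 1 + k₂) (by omega) (by omega)
  have nu3 := nuY hA (a := a) (b := b) (i := i - k₂ - l * J) (by omega) (by omega)
  have nu4 := nuY hA (a := a) (b := b) (i := i + 1 + k₂ - l * J) (by omega) (by omega)
  have mo := lamY_mono hA (by linarith) (a := a) (b := b) (i := i - k₂ - l * J)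
    (k := i + 1 + k₂ - l * J) (by omega) (by omega) (by omega)
  have act0 : ∀ x, lam (Y a) (Y b) (Y (i - k₂)) + 10 * c ≤ lam (Y a) (Y b) x →
      lam (Y a) (Y b) x + 10 * c ≤ lam (Y a) (Y b) (Y (i + 1 + k₂)) →
      nu (Y a) (Y b) ((w ^ l)⁻¹ • x) ≤ nu (Y a) (Y b) x + 6 * c ∧
      |(lam (Y a) (Y b) ((w ^ l)⁻¹ • x) - lam (Y a) (Y b) (Y (i - k₂ - l * J)))
        - (lam (Y a) (Y b) x - lam (Y a) (Y b) (Y (i - k₂)))| ≤ 8 * c := by
    intro x hx1 hx2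
    refine act hX hδc (Y a) (Y b) (Y a) (Y b) (Y (i - k₂)) (Y (i + 1 + k₂)) x
      (Y (i - k₂ - l * J)) (Y (i + 1 + k₂ - l * J)) ((w ^ l)⁻¹ • x) nu1 nu2 nu3 nu4 ?_ ?_ ?_ mo
      hx1 hx2 hc0
    · rw [← inv_zpow_Y hA, ← inv_zpow_Y hA, dist_smul]
    · rw [← inv_zpow_Y hA, dist_smul]
    · rw [← inv_zpow_Y hA, dist_smul]
  have du := distY hA (i := j - k) (k := j) (by omega)
  have dv := distY hA (i := j) (k := j + k) (by omega)
  push_cast at du dv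
  have e3 : ((j : ℝ) - (j - k)) * ℓp = k * ℓp := by ring
  have e4 : ((j : ℝ) + k - j) * ℓp = k * ℓp := by ring
  rw [e3] at du
  rw [e4] at dv
  have lu := lam_lip' (Y a) (Y b) (f • Y (j - k)) (f • Y j)
  have lv := lam_lip' (Y a) (Y b) (f • Y j) (f • Y (j + k))
  rw [dist_smul] at lu lv
  rw [abs_le] at lu lv
  obtain ⟨au1, au2⟩ := act0 (f • Y (j - k)) (by linarith [lu.1, lu.2]) (by linarith [lu.1, lu.2])
  obtain ⟨av1, av2⟩ := act0 (f • Y (j + k)) (by linarith [lv.1, lv.2]) (by linarith [lv.1, lv.2])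
  obtain ⟨-, aj2⟩ := act0 (f • Y j) (by linarith) (by linarith)
  obtain ⟨-, ai2⟩ := act0 (Y i) (by linarith) (by linarith)
  rw [inv_zpow_Y hA] at ai2
  rw [abs_le] at au2 av2 aj2 ai2
  refine near_mem hX hA hYZ hδc hc0 he hℓ hℓ₂ hc₃ hℓp hK₁ hK₂ hn hJq hJ2 hF hE (a := a) (b := b)
    j ((w ^ l)⁻¹ * f) k hk3 hk (by omega) (by omega) ?_ ?_ ?_ ?_
  · rw [mul_smul]; linarith
  · rw [mul_smul]; linarith
  · rw [mul_smul, mul_smul]
    linarith [au2.1, au2.2, av2.1, av2.2]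
  · rw [mul_smul]
    have ej : i - l * J = j + s := by omega
    rw [ej] at ai2
    have hsj : |lam (Y a) (Y b) (Y (j + s)) - lam (Y a) (Y b) (Y j)| ≤ (q + 3) * ℓp := by
      rw [abs_le]
      rcases le_total 0 s with h0 | h0
      · have t1 := lamY_hi hA (a := a) (b := b) (i := j) (k := j + s) (by omega) (by omega)
          (by omega)
        have t2 := lamY_mono hA (by linarith) (a := a) (b := b) (i := j) (k := j + s) (by omega)
          (by omega) (by omega)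
        push_cast at t1
        have t3 : ((j : ℝ) + s - j) * ℓp ≤ (q + 3) * ℓp := by
          apply mul_le_mul_of_nonneg_right _ hℓp0.le
          have : (s : ℝ) ≤ ((q + 3 : ℤ) : ℝ) := by exact_mod_cast hs.2
          push_cast at this
          linarith
        have t4 : 0 ≤ (q + 3) * ℓp := by positivity
        constructor <;> linarith
      · have t1 := lamY_hi hA (a := a) (b := b) (i := j + s) (k := j) (by omega) (by omega)
          (by omega)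
        have t2 := lamY_mono hA (by linarith) (a := a) (b := b) (i := j + s) (k := j) (by omega)
          (by omega) (by omega)
        push_cast at t1
        have t3 : ((j : ℝ) - (j + s)) * ℓp ≤ (q + 3) * ℓp := by
          apply mul_le_mul_of_nonneg_right _ hℓp0.le
          have : ((-(q + 3) : ℤ) : ℝ) ≤ s := by exact_mod_cast hs.1
          push_cast at this
          linarith
        have t4 : 0 ≤ (q + 3) * ℓp := by positivity
        constructor <;> linarith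
    rw [abs_le] at hsj ⊢
    have e5 : (q + 5) * ℓp = (q + 3) * ℓp + 2 * ℓp := by ring
    rw [e5]
    constructor
    · linarith [hsj.1, hsj.2, aj2.1, aj2.2, ai2.1, ai2.2]
    · linarith [hsj.1, hsj.2, aj2.1, aj2.2, ai2.1, ai2.2]

/-- The orientation reversing case is impossible. -/
theorem or_false (hX : Hyp X δ) (hA : AxisData w J Y Y' Z c e ℓ ℓ₂ ℓp)
    {q : ℕ} (hδc : δ ≤ c)
    (hc0 : 0 < c) (he : 10000 * c ≤ e) (hℓ₂ : 1000 * e ≤ ℓ₂)
    (hℓp0 : 0 < ℓp) (hq0 : 0 < q) (hq : 10 * ℓp ≤ q * ℓ₂) (hJ : 1000 * q ^ 2 ≤ J)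
    {a b i0 i1 : ℤ} (f : G) (hi0 : a ≤ i0) (hi1 : i1 ≤ b)
    (n0 : nu (Y a) (Y b) (f • Y i0) ≤ 6 * c) (n1 : nu (Y a) (Y b) (f • Y i1) ≤ 6 * c)
    (ho : lam (Y a) (Y b) (f • Y i1) ≤ lam (Y a) (Y b) (f • Y i0))
    (j i i' l l' s s' : ℤ) (hj1 : i0 + 1 ≤ j) (hj2 : j + (2 * q + 7) + 1 ≤ i1)
    (his : i = j + l * J + s) (his' : i' = j + (2 * q + 7) + l' * J + s')
    (hs : |s| ≤ q + 3) (hs' : |s'| ≤ q + 3)
    (hai : a ≤ i) (hbi : i + 1 ≤ b) (hai' : a ≤ i') (hbi' : i' + 1 ≤ b)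
    (m1 : lam (Y a) (Y b) (Y i) ≤ lam (Y a) (Y b) (f • Y j))
    (m2 : lam (Y a) (Y b) (f • Y j) ≤ lam (Y a) (Y b) (Y (i + 1)))
    (m3 : lam (Y a) (Y b) (Y i') ≤ lam (Y a) (Y b) (f • Y (j + (2 * q + 7))))
    (m4 : lam (Y a) (Y b) (f • Y (j + (2 * q + 7))) ≤ lam (Y a) (Y b) (Y (i' + 1))) : False := by
  have hδ0 := hX.nonneg (Y 0)
  rw [abs_le] at hs hs'
  have nu0 := nuY hA (a := a) (b := b) (i := i0) (by omega) (by omega)
  have nu1 := nuY hA (a := a) (b := b) (i := i1) (by omega) (by omega)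
  have act0 : ∀ k : ℤ, i0 + 1 ≤ k → k + 1 ≤ i1 →
      |(lam (Y a) (Y b) (f • Y i0) - lam (Y a) (Y b) (f • Y k))
        - (lam (Y a) (Y b) (Y k) - lam (Y a) (Y b) (Y i0))| ≤ 48 * c := by
    intro k hk1 hk2
    have s1 := (lamY_step hA (a := a) (b := b) (i := i0) (by omega) (by omega)).1
    have s2 := (lamY_step hA (a := a) (b := b) (i := k) (by omega) (by omega)).1
    have s3 := lamY_mono hA (by linarith) (a := a) (b := b) (i := i0 + 1) (k := k) (by omega)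
      (by omega) (by omega)
    have s4 := lamY_mono hA (by linarith) (a := a) (b := b) (i := k + 1) (k := i1) (by omega)
      (by omega) (by omega)
    have := (act hX (c := 6 * c) (by linarith) (Y a) (Y b) (Y b) (Y a) (Y i0) (Y i1) (Y k)
      (f • Y i0) (f • Y i1) (f • Y k) (by linarith) (by linarith) (by rw [nu_swap]; exact n0)
      (by rw [nu_swap]; exact n1) (dist_smul _ _ _) (dist_smul _ _ _) (dist_smul _ _ _)
      (by rw [lam_swap, lam_swap (Y a)]; linarith) (by linarith) (by linarith)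
      (by linarith)).2
    rw [lam_swap, lam_swap (Y a)] at this
    have e1 : dist (Y a) (Y b) - lam (Y a) (Y b) (f • Y k) -
        (dist (Y a) (Y b) - lam (Y a) (Y b) (f • Y i0)) =
        lam (Y a) (Y b) (f • Y i0) - lam (Y a) (Y b) (f • Y k) := by ring
    rw [e1] at this
    linarith
  have b1 := act0 j (by omega) (by omega)
  have b2 := act0 (j + (2 * q + 7)) (by omega) (by omega)
  rw [abs_le] at b1 b2
  have g1 := lamY_lo hA (a := a) (b := b) (i := j) (k := j + (2 * q + 7)) (by omega) (by omega)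
    (by omega)
  have g2 := lamY_hi hA (a := a) (b := b) (i := j) (k := j + (2 * q + 7)) (by omega) (by omega)
    (by omega)
  push_cast at g1 g2
  have e1 : ((j : ℝ) + (2 * q + 7) - j) * (ℓ₂ - 2 * c) = (2 * q + 7) * (ℓ₂ - 2 * c) := by ring
  have e2 : ((j : ℝ) + (2 * q + 7) - j) * ℓp = (2 * q + 7) * ℓp := by ring
  rw [e1] at g1
  rw [e2] at g2
  have hqn : (0 : ℝ) ≤ q := Nat.cast_nonneg q
  have pos1 : 0 ≤ (2 * (q : ℝ)) * (ℓ₂ - 2 * c) := by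
    apply mul_nonneg (by positivity)
    linarith
  have e3 : (2 * (q : ℝ) + 7) * (ℓ₂ - 2 * c) = (2 * (q : ℝ)) * (ℓ₂ - 2 * c) + 7 * (ℓ₂ - 2 * c) := by
    ring
  have hii : i' ≤ i := by
    by_contra hcon
    push Not at hcon
    have t1 := lamY_mono hA (by linarith) (a := a) (b := b) (i := i + 1) (k := i') (by omega)
      (by omega) (by omega)
    linarith [b1.1, b1.2, b2.1, b2.2]
  have hii2 : i - i' ≤ (2 * q + 7) * q + 1 := by
    by_contra hcon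
    push Not at hcon
    have t0 : (0 : ℤ) ≤ (2 * q + 7) * q := by positivity
    have t1 := lamY_lo hA (a := a) (b := b) (i := i' + 1) (k := i) (by omega) (by omega)
      (by omega)
    have t2 : ((2 * q + 7) * q + 1 : ℝ) ≤ (i : ℝ) - ((i' + 1 : ℤ) : ℝ) := by
      have : (((2 * q + 7) * q + 1 + 1 : ℤ) : ℝ) ≤ ((i - i' : ℤ) : ℝ) := by exact_mod_cast hcon
      push_cast at this ⊢
      linarith
    have t3 : ((2 * q + 7) * q + 1 : ℝ) * (ℓ₂ - 2 * c) ≤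
        ((i : ℝ) - ((i' + 1 : ℤ) : ℝ)) * (ℓ₂ - 2 * c) :=
      mul_le_mul_of_nonneg_right t2 (by linarith)
    have t4 : (2 * q + 7 : ℝ) * ℓp ≤ (2 * q + 7) * (q * (ℓ₂ - 2 * c)) := by
      apply mul_le_mul_of_nonneg_left _ (by positivity)
      have : (q : ℝ) * (2 * c) ≤ q * (ℓ₂ / 10) := by
        apply mul_le_mul_of_nonneg_left _ hqn
        linarith
      have e4 : (q : ℝ) * (ℓ₂ - 2 * c) = q * ℓ₂ - q * (2 * c) := by ring
      have e5 : (q : ℝ) * (ℓ₂ / 10) = q * ℓ₂ / 10 := by ring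
      rw [e4]
      linarith
    have e6 : ((2 * q + 7) * q + 1 : ℝ) * (ℓ₂ - 2 * c) =
        (2 * q + 7) * (q * (ℓ₂ - 2 * c)) + (ℓ₂ - 2 * c) := by ring
    rw [e6] at t3
    linarith [b1.1, b1.2, b2.1, b2.2]
  have hd : (l - l') * (J : ℤ) = (i - i') + (2 * q + 7) + s' - s := by
    have : (l - l') * (J : ℤ) = l * J - l' * J := by ring
    rw [this]
    omega
  have hJ' : (1000 * (q : ℤ) ^ 2) ≤ J := by exact_mod_cast hJ
  have hq1 : (1 : ℤ) ≤ q := by exact_mod_cast hq0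
  have hqq : (q : ℤ) ≤ (q : ℤ) ^ 2 := by nlinarith
  have hlow : 1 ≤ (l - l') * (J : ℤ) := by omega
  have hhigh : (l - l') * (J : ℤ) < J := by
    have e7 : (2 * (q : ℤ) + 7) * q = 2 * (q : ℤ) ^ 2 + 7 * q := by ring
    rw [e7] at hii2
    omega
  have hJ0 : (0 : ℤ) < J := by linarith
  have hll : 0 < l - l' := by
    by_contra hcon
    push Not at hcon
    have := mul_nonpos_of_nonpos_of_nonneg hcon hJ0.le
    omega
  have : (1 : ℤ) * J ≤ (l - l') * J := mul_le_mul_of_nonneg_right (by omega) hJ0.le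
  omega

end axis

/-- If no translate of the axis matches a block with the rest of the axis, then every element
whose translate of the axis has a long overlap with the axis is a power of w times an element
of E. -/
theorem overlap {X : Type*} [PseudoMetricSpace X] {G : Type*} [Group G] [MulAction G X]
    [IsIsometricSMul G X] {δ : ℝ} (hX : Hyp X δ) {w : G} {J : ℕ} {Y Y' Z : ℤ → X}
    {c e ℓ ℓ₂ ℓp θ K₁ K₂ c₃ : ℝ} {q n₀ : ℕ} {E : Set G}
    (hA : AxisData w J Y Y' Z c e ℓ ℓ₂ ℓp)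
    (hYZ : ∀ i : ℤ, gp (Y i) (Z (i + 1)) (Y' i) ≤ e)
    (hc0 : 0 < c) (hδc : δ ≤ c) (he : 10000 * c ≤ e) (hℓ : 1000 * e ≤ ℓ) (hℓ₂ : 1000 * e ≤ ℓ₂)
    (hℓp : ℓ ≤ ℓp) (hq0 : 0 < q) (hq : 10 * ℓp ≤ q * ℓ₂) (hJ : 1000 * q ^ 2 ≤ J)
    (hθ : 1000 * q ^ 2 * ℓp ≤ θ) (hK₁ : 1000000 * c * ℓp ≤ K₁ * ℓ) (hK₂ : K₁ + 1000 * c ≤ K₂)
    (hn : 100 * ℓp ≤ K₁ * n₀) (hc₃ : 1000 * c ≤ c₃)
    (hF : ∀ (j : ℤ) (h : G), gp (Z (j + 1 - J)) (Z j) (h • Y (j - 1)) ≤ c₃ →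
      gp (Z (j + 1 - J)) (Z j) (h • Y' (j - 1)) ≤ c₃ →
      gp (Z (j + 1)) (h⁻¹ • Z j) (Z j) ≤ e ∧ gp (Z (j + 1)) (h⁻¹ • Z (j + 1 - J)) (Z j) ≤ e ∧
      ∀ m : ℕ, m ≤ n₀ → gp (Z (j + 1)) ((h ^ m)⁻¹ • Y (j - 1)) (Z j) ≤ e)
    (hE : ∀ (j : ℤ) (h : G), dist (Y j) (h • Y j) ≤ K₂ → dist (Y' j) (h • Y' j) ≤ K₂ → h ∈ E)
    (g : G) (N : ℕ)
    (hg : 2 * θ < |dist (w ^ N • Y 0) (g • (w ^ N)⁻¹ • Y 0)
      + dist ((w ^ N)⁻¹ • Y 0) (g • w ^ N • Y 0) - dist (w ^ N • Y 0) (g • w ^ N • Y 0)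
      - dist ((w ^ N)⁻¹ • Y 0) (g • (w ^ N)⁻¹ • Y 0)|) :
    ∃ s : ℤ, w ^ s * g⁻¹ ∈ E := by
  have hδ0 := hX.nonneg (Y 0)
  have hℓ0 : 0 < ℓ := by linarith
  have hℓp0 : 0 < ℓp := by linarith
  have hℓ₂0 : 0 < ℓ₂ := by linarith
  have hq1 : (1 : ℝ) ≤ q := by exact_mod_cast hq0
  have hq2 : (1 : ℝ) ≤ (q : ℝ) ^ 2 := by nlinarith
  have hqq : (q : ℝ) ≤ (q : ℝ) ^ 2 := by nlinarith
  have hq1' : (1 : ℤ) ≤ q := by exact_mod_cast hq0
  have hqq' : (q : ℤ) ≤ (q : ℤ) ^ 2 := by nlinarith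
  have hJ' : (1000 * (q : ℤ) ^ 2) ≤ J := by exact_mod_cast hJ
  have hJr : (1000 * (q : ℝ) ^ 2) ≤ J := by exact_mod_cast hJ
  -- numerical facts
  have hqe : 9 * ℓp ≤ q * (ℓ₂ - 2 * c) := by
    have : (q : ℝ) * (2 * c) ≤ q * (ℓ₂ / 10) := by
      apply mul_le_mul_of_nonneg_left _ (by linarith)
      linarith
    have e4 : (q : ℝ) * (ℓ₂ - 2 * c) = q * ℓ₂ - q * (2 * c) := by ring
    have e5 : (q : ℝ) * (ℓ₂ / 10) = q * ℓ₂ / 10 := by ring
    rw [e4]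
    linarith
  have hbig : ∀ x : ℝ, 8 * (q : ℝ) ^ 2 ≤ x → (q + 8) * ℓp ≤ x * (ℓ₂ - 2 * c) := by
    intro x hx
    have h1 : 8 * (q : ℝ) ^ 2 * (ℓ₂ - 2 * c) ≤ x * (ℓ₂ - 2 * c) :=
      mul_le_mul_of_nonneg_right hx (by linarith)
    have h2 : 8 * (q : ℝ) ^ 2 * (ℓ₂ - 2 * c) = 8 * q * (q * (ℓ₂ - 2 * c)) := by ring
    have h3 : 8 * (q : ℝ) * (9 * ℓp) ≤ 8 * q * (q * (ℓ₂ - 2 * c)) :=
      mul_le_mul_of_nonneg_left hqe (by positivity)
    have h4 : (1 : ℝ) * ℓp ≤ q * ℓp := mul_le_mul_of_nonneg_right hq1 hℓp0.le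
    have h5 : 8 * (q : ℝ) * (9 * ℓp) = 72 * (q * ℓp) := by ring
    have h6 : (q + 8) * ℓp = q * ℓp + 8 * ℓp := by ring
    rw [h6]
    linarith
  have hJq : (q + 8) * ℓp ≤ ((J : ℝ) - 2) * (ℓ₂ - 2 * c) := hbig _ (by linarith)
  have hJ2 : 2 ≤ J := by
    have : 1 ≤ q ^ 2 := Nat.one_le_pow _ _ hq0
    omega
  set k : ℕ := 10 * q ^ 2 with hkdef
  have hkr : (k : ℝ) = 10 * (q : ℝ) ^ 2 := by rw [hkdef]; push_cast; ring
  have hkz : (k : ℤ) = 10 * (q : ℤ) ^ 2 := by rw [hkdef]; push_cast; ring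
  have hk : (q + 8) * ℓp ≤ ((k : ℝ) - 2) * (ℓ₂ - 2 * c) := hbig _ (by rw [hkr]; linarith)
  have hk3 : 3 ≤ k := by
    have : 1 ≤ q ^ 2 := Nat.one_le_pow _ _ hq0
    omega
  set k₂ : ℕ := q * (k + 1) with hk₂def
  have hk₂ : k * ℓp + 20 * c ≤ k₂ * (ℓ₂ - 2 * c) := by
    have h1 : (k₂ : ℝ) * (ℓ₂ - 2 * c) = (k + 1) * (q * (ℓ₂ - 2 * c)) := by
      rw [hk₂def]; push_cast; ring
    have h2 : ((k : ℝ) + 1) * (9 * ℓp) ≤ (k + 1) * (q * (ℓ₂ - 2 * c)) :=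
      mul_le_mul_of_nonneg_left hqe (by positivity)
    have h3 : (0 : ℝ) ≤ k * ℓp := by positivity
    have h4 : ((k : ℝ) + 1) * (9 * ℓp) = 9 * (k * ℓp) + 9 * ℓp := by ring
    rw [h1]
    linarith
  -- the window
  obtain ⟨I, i0, hi0, hi1, hw⟩ := window hX hA hδc hc0 (by linarith) (by linarith) hℓp0
    (θ := θ) (r := 900 * q ^ 2) (by
      push_cast
      have h1 : 1 * ℓp ≤ (q : ℝ) ^ 2 * ℓp := mul_le_mul_of_nonneg_right hq2 hℓp0.le
      have h2 : (900 * (q : ℝ) ^ 2 + 5) * ℓp = 900 * (q ^ 2 * ℓp) + 5 * ℓp := by ring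
      have h3 : 1000 * (q : ℝ) ^ 2 * ℓp = 1000 * (q ^ 2 * ℓp) := by ring
      rw [h2]
      rw [h3] at hθ
      linarith) g N hg
  push_cast at hi1 hw
  set f := g⁻¹ with hf
  set b : ℤ := I + 2 * J + k + k₂ + 2 * q + 50 with hb
  set a : ℤ := -b with ha
  have hk₂0 : (0 : ℤ) ≤ k₂ := by positivity
  have enl : ∀ x, nu (Y a) (Y b) x ≤ nu (Y (-I)) (Y I) x + 2 * c := by
    intro x
    exact nu_ends hA (by omega) (by omega) (by omega) x
  have hwY : ∀ i, i0 ≤ i → i ≤ i0 + 900 * (q : ℤ) ^ 2 → nu (Y a) (Y b) (f • Y i) ≤ 6 * c := by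
    intro i h1 h2
    have h3 := (hw i h1 h2).1
    have h4 := enl (f • Y i)
    linarith
  have hwY' : ∀ i, i0 ≤ i → i ≤ i0 + 900 * (q : ℤ) ^ 2 → nu (Y a) (Y b) (f • Y' i) ≤ 6 * c := by
    intro i h1 h2
    have h3 := (hw i h1 h2).2.1
    have h4 := enl (f • Y' i)
    linarith
  have hwZ : ∀ i, i0 ≤ i → i ≤ i0 + 900 * (q : ℤ) ^ 2 →
      nu (Y a) (Y b) (f • Z i) ≤ e + 5 * c := by
    intro i h1 h2
    have h3 := (hw i h1 h2).2.2
    have h4 := enl (f • Z i)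
    linarith
  -- the index of an image
  have loc : ∀ j, i0 ≤ j → j ≤ i0 + 900 * (q : ℤ) ^ 2 → ∃ i, -I - 1 ≤ i ∧ i ≤ I ∧
      lam (Y a) (Y b) (Y i) ≤ lam (Y a) (Y b) (f • Y j) ∧
      lam (Y a) (Y b) (f • Y j) ≤ lam (Y a) (Y b) (Y (i + 1)) := by
    intro j h1 h2
    have h3 := (hw j h1 h2).1
    have s1 := (lamY_step hA (a := a) (b := b) (i := -I - 1) (by omega) (by omega)).1
    have s2 := (lamY_step hA (a := a) (b := b) (i := I) (by omega) (by omega)).1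
    rw [sub_add_cancel] at s1
    have s3 := lamY_mono hA (by linarith) (a := a) (b := b) (i := -I) (k := I) (by omega)
      (by omega) (by omega)
    have s4 := lam_between hX (Y a) (Y b) (Y (-I)) (Y I) (f • Y j) s3 h3
    have s5 := nuY hA (a := a) (b := b) (i := -I) (by omega) (by omega)
    have s6 := nuY hA (a := a) (b := b) (i := I) (by omega) (by omega)
    obtain ⟨i, t1, t2, t3, t4⟩ := int_step (fun i => lam (Y a) (Y b) (Y i))
      (a := -I - 1) (b := I + 1) (by omega) (t := lam (Y a) (Y b) (f • Y j))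
      (by show lam (Y a) (Y b) (Y (-I - 1)) ≤ _; linarith [s4.1])
      (by show _ ≤ lam (Y a) (Y b) (Y (I + 1)); linarith [s4.2])
    exact ⟨i, t1, by omega, t3, t4⟩
  -- the near property
  have nr : ∀ j i, i0 + 1 ≤ j → j + 1 ≤ i0 + 900 * (q : ℤ) ^ 2 → -I - 1 ≤ i → i ≤ I →
      lam (Y a) (Y b) (Y i) ≤ lam (Y a) (Y b) (f • Y j) →
      lam (Y a) (Y b) (f • Y j) ≤ lam (Y a) (Y b) (Y (i + 1)) →
      ∃ l s : ℤ, i = j + l * J + s ∧ |s| ≤ q + 3 := by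
    intro j i h1 h2 h3 h4 h5 h6
    have e1 := hwY (j - 1) (by omega) (by omega)
    have e2 := hwY' (j - 1) (by omega) (by omega)
    have e3 := hwZ (j + 1) (by omega) (by omega)
    refine near hX hA hYZ hδc hc0 he hℓ hℓ₂ hc₃ hℓp hq (by
      have : (2 * (q : ℤ) + 10) ≤ J := by omega
      exact_mod_cast this) hF (a := a) (b := b) j i f (by omega)
      (by omega) (by linarith) (by linarith) (by linarith) h5 h6
  obtain ⟨i, li1, li2, li3, li4⟩ := loc (i0 + k + 3) (by omega) (by omega)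
  obtain ⟨l, s, hls1, hls2⟩ := nr (i0 + k + 3) i (by omega) (by omega) li1 li2 li3 li4
  have e0 := hwY i0 le_rfl (by omega)
  have e1 := hwY (i0 + 900 * (q : ℤ) ^ 2) (by omega) le_rfl
  rcases le_total (lam (Y a) (Y b) (f • Y (i0 + 900 * (q : ℤ) ^ 2)))
    (lam (Y a) (Y b) (f • Y i0)) with ho | ho
  · exfalso
    obtain ⟨i', li1', li2', li3', li4'⟩ := loc (i0 + k + 3 + (2 * q + 7)) (by omega) (by omega)
    obtain ⟨l', s', hls1', hls2'⟩ := nr (i0 + k + 3 + (2 * q + 7)) i' (by omega) (by omega)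
      li1' li2' li3' li4'
    exact or_false hX hA hδc hc0 he hℓ₂ hℓp0 hq0 hq hJ (a := a) (b := b) (i0 := i0)
      (i1 := i0 + 900 * (q : ℤ) ^ 2) f (by omega) (by omega) e0 e1 ho (i0 + k + 3) i i' l l' s s'
      (by omega) (by omega) hls1 hls1' hls2 hls2' (by omega) (by omega) (by omega) (by omega)
      li3 li4 li3' li4'
  · have nu0 := nuY hA (a := a) (b := b) (i := i0) (by omega) (by omega)
    have nu1 := nuY hA (a := a) (b := b) (i := i0 + 900 * (q : ℤ) ^ 2) (by omega) (by omega)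
    have act0 : ∀ m : ℤ, i0 + 1 ≤ m → m + 1 ≤ i0 + 900 * (q : ℤ) ^ 2 →
        |(lam (Y a) (Y b) (f • Y m) - lam (Y a) (Y b) (f • Y i0))
          - (lam (Y a) (Y b) (Y m) - lam (Y a) (Y b) (Y i0))| ≤ 48 * c := by
      intro m hk1 hk2
      have s1 := (lamY_step hA (a := a) (b := b) (i := i0) (by omega) (by omega)).1
      have s2 := (lamY_step hA (a := a) (b := b) (i := m) (by omega) (by omega)).1
      have s3 := lamY_mono hA (by linarith) (a := a) (b := b) (i := i0 + 1) (k := m) (by omega)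
        (by omega) (by omega)
      have s4 := lamY_mono hA (by linarith) (a := a) (b := b) (i := m + 1)
        (k := i0 + 900 * (q : ℤ) ^ 2) (by omega) (by omega) (by omega)
      have := (act hX (c := 6 * c) (by linarith) (Y a) (Y b) (Y a) (Y b) (Y i0)
        (Y (i0 + 900 * (q : ℤ) ^ 2)) (Y m)
        (f • Y i0) (f • Y (i0 + 900 * (q : ℤ) ^ 2)) (f • Y m) (by linarith) (by linarith) e0
        e1 (dist_smul _ _ _) (dist_smul _ _ _) (dist_smul _ _ _)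
        ho (by linarith) (by linarith) (by linarith)).2
      linarith
    have b1 := act0 (i0 + k + 3 - k) (by omega) (by omega)
    have b2 := act0 (i0 + k + 3 + k) (by omega) (by omega)
    rw [abs_le] at b1 b2
    have s5 := lamY_mono hA (by linarith) (a := a) (b := b) (i := i0 + k + 3 - k + 1)
      (k := i0 + k + 3 + k) (by omega) (by omega) (by omega)
    have s6 := (lamY_step hA (a := a) (b := b) (i := i0 + k + 3 - k) (by omega) (by omega)).1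
    have hfin := op_case hX hA hYZ hδc hc0 he hℓ hℓ₂ hc₃ hℓp hK₁ hK₂ hn hJq hJ2 hF hE (a := a)
      (b := b) (i0 + k + 3) i l s f hls1 hls2 k k₂ hk3 hk hk₂ (by omega) (by omega) (by omega)
      (by omega) (hwY _ (by omega) (by omega)) (hwY _ (by omega) (by omega)) li3 li4
      (by linarith [b1.1, b1.2, b2.1, b2.2])
    refine ⟨-l, ?_⟩
    rw [zpow_neg]
    exact hfin

end Pool.Agent.H55.WPD
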